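import Pool.Agent.T6.H91.HP.Pt

set_option autoImplicit false

/-! A Borel-Cantelli lemma for integral points of boxes. -/

namespace Pool.Agent.T6.H91.HP

open MvPolynomial Pool.Agent.H936R2 Pool.Agent.H927R2.RD Filter Topology

theorem finite_box {ι : Type} [Fintype ι] (B : ℕ) (Q : (ι → ℤ) → Prop) :
    Finite {v : ι → ℤ // (∀ i, |v i| ≤ (B : ℤ)) ∧ Q v} := by
  classical
  apply Set.Finite.subset (s := {v : ι → ℤ | v ∈ Fintype.piFinset fun _ : ι =>
    Finset.Icc (-(B : ℤ)) B}) (Finset.finite_toSet _)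
  rintro v ⟨h1, -⟩
  simp only [Set.mem_ofPred_eq, Fintype.mem_piFinset, Finset.mem_Icc]
  intro i
  exact abs_le.1 (h1 i)

theorem density_zero {ι : Type} [Fintype ι] (Q : (ι → ℤ) → Prop) (G : ∀ p : ℕ, Set (ι → ZMod p))
    (hQ : ∀ p : ℕ, p.Prime → ∀ v : ι → ℤ, (fun i => (v i : ZMod p)) ∈ G p → Q v)
    (hG : ¬ Summable (fun p : ℕ => if p.Prime then
      (Nat.card (G p) : ℝ) / (p : ℝ) ^ Fintype.card ι else 0)) :
    Tendsto (fun B : ℕ => (Nat.card {v : ι → ℤ // (∀ i, |v i| ≤ (B : ℤ)) ∧ ¬ Q v} : ℝ) /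
      (2 * B + 1 : ℝ) ^ Fintype.card ι) atTop (𝓝 0) := by
  classical
  set I := Fintype.card ι with hI
  set g : ℕ → ℝ := fun p : ℕ => if p.Prime then (Nat.card (G p) : ℝ) / (p : ℝ) ^ I else 0 with hg
  have hg0 : ∀ p, 0 ≤ g p := by
    intro p
    simp only [hg]
    split_ifs
    · positivity
    · exact le_rfl
  have ht := (not_summable_iff_tendsto_nat_atTop_of_nonneg hg0).1 hG
  rw [Metric.tendsto_atTop]
  intro ε hε
  obtain ⟨n, hn⟩ := (ht.eventually_ge_atTop (Real.log (4 / ε))).exists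
  set P : Finset ℕ := (Finset.range n).filter Nat.Prime with hPdef
  have hP : ∀ p ∈ P, p.Prime := fun p hp => (Finset.mem_filter.1 hp).2
  set M : ℝ := ∏ p ∈ P, (p : ℝ) with hM
  have hM0 : 0 ≤ M := Finset.prod_nonneg fun p _ => Nat.cast_nonneg p
  have hlim : Tendsto (fun H : ℕ => ((2 * H + 1 : ℝ) + M) ^ I / (2 * H + 1 : ℝ) ^ I) atTop
      (nhds 1) := by
    have h1 : Tendsto (fun H : ℕ => (1 + M / (2 * H + 1 : ℝ)) ^ I) atTop (nhds ((1 + 0) ^ I)) := by
      apply Tendsto.pow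
      apply Tendsto.const_add
      apply Tendsto.div_atTop tendsto_const_nhds
      apply tendsto_atTop_add_const_right
      exact tendsto_natCast_atTop_atTop.const_mul_atTop (by norm_num)
    rw [add_zero, one_pow] at h1
    refine h1.congr fun H => ?_
    have h2 : (0 : ℝ) < 2 * H + 1 := by positivity
    rw [← div_pow]
    congr 1
    field_simp
  have hev : ∀ᶠ H : ℕ in atTop, ((2 * H + 1 : ℝ) + M) ^ I / (2 * H + 1 : ℝ) ^ I < 2 :=
    hlim.eventually_lt_const (by norm_num)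
  obtain ⟨H₀, hH₀⟩ := eventually_atTop.1 hev
  -- the product
  have hprod : (∏ p ∈ P, (Nat.card ((fun p => (G p)ᶜ) p : Set (ι → ZMod p)) : ℝ) /
      (p : ℝ) ^ Fintype.card ι) ≤ ε / 4 := by
    have h1 : (∏ p ∈ P, (Nat.card ((fun p => (G p)ᶜ) p : Set (ι → ZMod p)) : ℝ) /
        (p : ℝ) ^ Fintype.card ι) ≤ ∏ p ∈ P, Real.exp (-g p) := by
      apply Finset.prod_le_prod
      · intro p _
        positivity
      · intro p hp
        haveI : Fact p.Prime := ⟨hP p hp⟩
        have hp0 : (0 : ℝ) < (p : ℝ) ^ Fintype.card ι := by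
          have := (hP p hp).pos
          positivity
        have h1 : Nat.card ((G p)ᶜ : Set (ι → ZMod p)) + Nat.card (G p) =
            p ^ Fintype.card ι := by
          rw [Nat.card_coe_set_eq, Nat.card_coe_set_eq, Nat.add_comm, Set.ncard_add_ncard_compl,
            Nat.card_eq_fintype_card, Fintype.card_fun, ZMod.card]
        have h2 : (Nat.card ((G p)ᶜ : Set (ι → ZMod p)) : ℝ) + Nat.card (G p) =
            (p : ℝ) ^ Fintype.card ι := by exact_mod_cast h1
        have h3 : (Nat.card ((G p)ᶜ : Set (ι → ZMod p)) : ℝ) / (p : ℝ) ^ Fintype.card ι =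
            1 - g p := by
          simp only [hg]
          rw [if_pos (hP p hp), eq_sub_iff_add_eq, ← add_div, h2, div_self hp0.ne']
        have h4 : ((fun p => (G p)ᶜ) p : Set (ι → ZMod p)) = (G p)ᶜ := rfl
        rw [h4, h3]
        have := Real.add_one_le_exp (-g p)
        linarith
    refine h1.trans ?_
    rw [← Real.exp_sum, Finset.sum_neg_distrib]
    have h2 : Real.log (4 / ε) ≤ ∑ p ∈ P, g p := by
      refine hn.trans (le_of_eq ?_)
      rw [hPdef, Finset.sum_filter]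
      apply Finset.sum_congr rfl
      intro p _
      simp only [hg]
      split_ifs <;> rfl
    calc Real.exp (-∑ p ∈ P, g p) ≤ Real.exp (-Real.log (4 / ε)) :=
          Real.exp_le_exp.2 (by linarith)
      _ = ε / 4 := by
          rw [Real.exp_neg, Real.exp_log (by positivity), inv_div]
  refine ⟨H₀, fun H hH => ?_⟩
  have hle : Nat.card {v : ι → ℤ // (∀ i, |v i| ≤ (H : ℤ)) ∧ ¬ Q v} ≤
      Nat.card {v : ι → ℤ // (∀ i, |v i| ≤ (H : ℤ)) ∧
        ∀ p ∈ P, (fun i => (v i : ZMod p)) ∈ (fun p => (G p)ᶜ) p} := by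
    haveI := finite_box H fun v : ι → ℤ =>
      ∀ p ∈ P, (fun i => (v i : ZMod p)) ∈ (fun p => (G p)ᶜ) p
    apply Nat.card_le_card_of_injective (fun v => ⟨v.1, v.2.1, fun p hp h =>
      v.2.2 (hQ p (hP p hp) v.1 h)⟩)
    intro v w hvw
    apply Subtype.ext
    exact congrArg (fun z => z.1) hvw
  have hbox := box_count P hP (fun p => (G p)ᶜ) H
  have hH2 := hH₀ H hH
  have hpos : (0 : ℝ) < (2 * H + 1 : ℝ) ^ I := by positivity
  rw [div_lt_iff₀ hpos] at hH2
  rw [Real.dist_eq, sub_zero, abs_of_nonneg (by positivity), div_lt_iff₀ hpos]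
  calc (Nat.card {v : ι → ℤ // (∀ i, |v i| ≤ (H : ℤ)) ∧ ¬ Q v} : ℝ) ≤ _ := by exact_mod_cast hle
    _ ≤ _ := hbox
    _ ≤ (ε / 4) * ((2 * H + 1 : ℝ) + M) ^ I := by
        apply mul_le_mul_of_nonneg_right hprod
        positivity
    _ ≤ (ε / 4) * (2 * (2 * H + 1 : ℝ) ^ I) :=
        mul_le_mul_of_nonneg_left hH2.le (by positivity)
    _ < ε * (2 * H + 1 : ℝ) ^ I := by nlinarith

variable {N d : ℕ}

/-- The points modulo `p` whose orbit is finally étale. -/
def GoodMod (F : Fin (N + 1) → MvPolynomial (Fin (N + 1)) ℤ) (p : ℕ) :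
    Set (Fin (N + 1) → ZMod p) :=
  {z | ∃ M : ℕ, ∀ n, M ≤ n → jd (ZMod p) F n z ≠ 0}

/-- The Borel-Cantelli criterion. -/
theorem almostAll {F : Fin (N + 1) → MvPolynomial (Fin (N + 1)) ℤ}
    (hF : ∀ i, (F i).IsHomogeneous d)
    (h : ¬ Summable (fun p : ℕ => if p.Prime then
      (Nat.card (GoodMod F p) : ℝ) / (p : ℝ) ^ (N + 1) else 0)) :
    Tendsto (fun B : ℕ => (Nat.card {α : Fin (N + 1) → ℤ // (∀ i, |α i| ≤ (B : ℤ)) ∧
      ¬ DMLAt F (fun i => (α i : ℂ))} : ℝ) / (2 * B + 1 : ℝ) ^ (N + 1)) atTop (𝓝 0) := by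
  have h1 := density_zero (ι := Fin (N + 1)) (fun α => DMLAt F (fun i => (α i : ℂ)))
    (fun p => GoodMod F p) (fun p hp α hα => by
      haveI : Fact p.Prime := ⟨hp⟩
      obtain ⟨M, hM⟩ := hα
      exact dml_of_int hF α p M hM) (by
      rw [Fintype.card_fin]
      exact h)
  rw [Fintype.card_fin] at h1
  exact h1

end Pool.Agent.T6.H91.HP
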