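import Pool.Agent.T6.H91.HP.Maps

set_option autoImplicit false

/-! Consequences: almost all points, almost all maps. -/

namespace Pool.Agent.T6.H91.HP

open Pool.Agent.H936R2 Pool.Agent.H927R2.RD Filter Topology

theorem card_line (p : ℕ) [hp : Fact p.Prime] (F : Fin (2 + 1) → MvPolynomial (Fin (2 + 1)) ℤ)
    (h : ∀ z : Fin (2 + 1) → ZMod p, z ≠ 0 → z 0 = 0 → z ∈ GoodMod F p) :
    (3 / 4) * (1 / (p : ℝ)) ≤ (Nat.card (GoodMod F p) : ℝ) / (p : ℝ) ^ (2 + 1) := by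
  classical
  have hp2 : (2 : ℝ) ≤ p := by exact_mod_cast hp.out.two_le
  have h1 : (((Finset.univ : Finset (ZMod p × ZMod p)).erase (0, 0)).card : ℕ) ≤
      Nat.card (GoodMod F p) := by
    rw [Nat.card_coe_set_eq, ← Set.ncard_coe_finset]
    apply Set.ncard_le_ncard_of_injOn (fun q : ZMod p × ZMod p => lpt q.1 q.2)
    · rintro ⟨x, y⟩ hq
      rw [Finset.mem_coe, Finset.mem_erase] at hq
      refine h _ (fun h0 => hq.1 ?_) rfl
      have e1 := congrFun h0 1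
      have e2 := congrFun h0 2
      exact Prod.ext e1 e2
    · rintro ⟨x, y⟩ _ ⟨x', y'⟩ _ hq
      exact Prod.ext (congrFun hq 1) (congrFun hq 2)
  rw [Finset.card_erase_of_mem (Finset.mem_univ _), Finset.card_univ, Fintype.card_prod,
    ZMod.card] at h1
  have h2 : ((p * p - 1 : ℕ) : ℝ) ≤ Nat.card (GoodMod F p) := by exact_mod_cast h1
  rw [Nat.cast_sub (Nat.mul_pos hp.out.pos hp.out.pos)] at h2
  push_cast at h2
  have hp0 : (0 : ℝ) < p := by linarith
  rw [le_div_iff₀ (by positivity)]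
  refine le_trans ?_ h2
  have h3 : 3 / 4 * (1 / (p : ℝ)) * (p : ℝ) ^ (2 + 1) = 3 / 4 * (p * p) := by
    field_simp
  rw [h3]
  nlinarith

variable {d : ℕ} {F : Fin (2 + 1) → MvPolynomial (Fin (2 + 1)) ℤ}

theorem cons_points (hd : 2 ≤ d) (hF : ∀ i, (F i).IsHomogeneous d) (M l : ℕ) (hl : 1 ≤ l)
    (hline : ∀ z : Fin (2 + 1) → ℂ, z 0 = 0 → ((cmap F)^[l] z) 0 = 0) (q : ℕ)
    (hq : q ∈ LP F M l) :
    Tendsto (fun B : ℕ => (Nat.card {α : Fin (2 + 1) → ℤ // (∀ i, |α i| ≤ (B : ℤ)) ∧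
      ¬ DMLAt F (fun i => (α i : ℂ))} : ℝ) / (2 * B + 1 : ℝ) ^ (2 + 1)) atTop (𝓝 0) := by
  apply almostAll hF
  intro hsum
  apply LP_diverges hF M l q hq
  refine Summable.of_nonneg_of_le (fun n => Set.indicator_nonneg (fun _ _ => by positivity) n)
    (fun n => ?_) (hsum.mul_left (4 / 3))
  by_cases hn : n ∈ LP F M l
  · rw [Set.indicator_of_mem hn, if_pos hn.1]
    have : Fact n.Prime := ⟨hn.1⟩
    have h1 := card_line n F fun z hz hz0 => ⟨M, fun k hk =>
      LP_forever hd hF M l hl hline n hn z hz hz0 k hk⟩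
    linarith
  · rw [Set.indicator_of_notMem hn]
    split_ifs <;> positivity

theorem cons_uniform (hd : 2 ≤ d) (hF : ∀ i, (F i).IsHomogeneous d) (M l : ℕ) (hl : 1 ≤ l)
    (hline : ∀ z : Fin (2 + 1) → ℂ, z 0 = 0 → ((cmap F)^[l] z) 0 = 0) (q : ℕ)
    (hq : q ∈ LP F M l) :
    Tendsto (fun B : ℕ => (Nat.card {a : ℤ // |a| ≤ (B : ℤ) ∧ ∃ b c : ℤ,
      Int.gcd a (Int.gcd b c) = 1 ∧ ¬ DMLAt F ![(a : ℂ), (b : ℂ), (c : ℂ)]} : ℝ) /
        (2 * B + 1 : ℝ)) atTop (𝓝 0) := by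
  have h := density_zero (ι := Unit) (fun v => ∀ b c : ℤ,
      Int.gcd (v ()) (Int.gcd b c) = 1 → DMLAt F ![(v () : ℂ), (b : ℂ), (c : ℂ)])
    (fun p => {w | p ∈ LP F M l ∧ w = 0}) (fun p hp v hv b c hbc => by
      obtain ⟨hpL, hv0⟩ := hv
      have h1 := dml_of_LP hd hF M l hl hline p hpL ![v (), b, c] (by
        have h2 : ((v () : ℤ) : ZMod p) = 0 := congrFun hv0 ()
        exact (ZMod.intCast_zmod_eq_zero_iff_dvd _ p).1 h2) (by
        rintro ⟨h3, h4⟩
        have h2 : ((v () : ℤ) : ZMod p) = 0 := congrFun hv0 ()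
        have h5 := (ZMod.intCast_zmod_eq_zero_iff_dvd _ p).1 h2
        have h6 : (p : ℤ) ∣ (Int.gcd b c : ℤ) := Int.dvd_coe_gcd h3 h4
        have h7 : (p : ℤ) ∣ (Int.gcd (v ()) (Int.gcd b c) : ℤ) := Int.dvd_coe_gcd h5 h6
        rw [hbc] at h7
        have h8 : p ∣ 1 := by exact_mod_cast h7
        exact hp.one_lt.ne' (Nat.dvd_one.1 h8))
      have h9 : (fun i => ((![v (), b, c] i : ℤ) : ℂ)) = ![(v () : ℂ), (b : ℂ), (c : ℂ)] := by
        funext i
        fin_cases i <;> rfl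
      rw [h9] at h1
      exact h1) (by
      intro hsum
      apply LP_diverges hF M l q hq
      refine Summable.of_nonneg_of_le (fun n => Set.indicator_nonneg (fun _ _ => by positivity) n)
        (fun n => ?_) hsum
      by_cases hn : n ∈ LP F M l
      · rw [Set.indicator_of_mem hn, if_pos hn.1]
        have h1 : ({w | n ∈ LP F M l ∧ w = 0} : Set (Unit → ZMod n)) = {0} := by
          ext w
          simp [hn]
        rw [h1]
        simp
      · rw [Set.indicator_of_notMem hn]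
        split_ifs <;> positivity)
  rw [Fintype.card_unit] at h
  refine h.congr fun B => ?_
  rw [pow_one]
  congr 2
  refine Nat.card_congr ⟨fun v => ⟨v.1 (), v.2.1 (), ?_⟩, fun a => ⟨fun _ => a.1, fun _ => a.2.1, ?_⟩,
    fun v => ?_, fun a => ?_⟩
  · have h1 := v.2.2
    push Not at h1
    exact h1
  · have h1 := a.2.2
    push Not
    exact h1
  · apply Subtype.ext
    funext i
    rfl
  · rfl

theorem maps_density {m : ℕ} (hm : 2 ≤ m) :
    Tendsto (fun H : ℕ => (Nat.card {w : Ix m → ℤ // (∀ i, |w i| ≤ (H : ℤ)) ∧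
      ¬ ∀ B : Fin (2 + 1) → MvPolynomial (Fin (2 + 1)) ℤ, (B 0).IsHomogeneous (m - 1) →
        (B 1).IsHomogeneous m → (B 2).IsHomogeneous m →
        ∃ p, p ∈ LP (lsys m (fun i => w (Sum.inl i)) (fun i => w (Sum.inr (Sum.inl i)))
          (fun i => w (Sum.inr (Sum.inr i))) B) 0 1} : ℝ) /
        (2 * H + 1 : ℝ) ^ Fintype.card (Ix m)) atTop (𝓝 0) := by
  apply density_zero (ι := Ix m) _ (fun p => GG m p)
  · rintro p hp w ⟨_, hpm, ha, -, hv⟩ B hB0 hB1 hB2
    exact ⟨p, lsys_good hm p hpm ha hv hB0 hB1 hB2⟩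
  · intro hsum
    set δ : ℝ := 1 / (8 * ((m : ℝ) + 1) * (m + 2) * (2 * m + 3)) with hδ
    have hδ0 : 0 < δ := by positivity
    have h1 := hsum.tendsto_atTop_zero
    have h2 := h1.eventually (gt_mem_nhds hδ0)
    obtain ⟨n, hn⟩ := eventually_atTop.1 h2
    obtain ⟨p, hpn, hp⟩ := Nat.exists_infinite_primes (max n (4 * m + 12))
    have : Fact p.Prime := ⟨hp⟩
    have h3 := hn p ((le_max_left _ _).trans hpn)
    rw [if_pos hp] at h3
    have h4 := card_GG (m := m) hm p ((le_max_right _ _).trans hpn)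
    linarith

end Pool.Agent.T6.H91.HP
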