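import Pool.Agent.T6.H91.HP.Sieve

set_option autoImplicit false

/-! Binary forms over `F_p` without zeros, and pairs of binary forms whose Jacobian has no zero. -/

namespace Pool.Agent.T6.H91.HP

open Finset Polynomial

variable {p : ℕ} [hp : Fact p.Prime] {m : ℕ}

/-- The functionals given by the values of a form. -/
noncomputable def fv (m : ℕ) : Option (ZMod p) → (Fin (m + 1) → ZMod p) →ₗ[ZMod p] ZMod p
  | none => (Polynomial.lcoeff (ZMod p) m).comp (Polynomial.ofFn (m + 1))
  | some t => (Polynomial.leval t).comp (Polynomial.ofFn (m + 1))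

theorem fv_none (v : Fin (m + 1) → ZMod p) : fv m none v = (ofFn (m + 1) v).coeff m := rfl

theorem fv_some (t : ZMod p) (v : Fin (m + 1) → ZMod p) :
    fv m (some t) v = (ofFn (m + 1) v).eval t := rfl

theorem ofFn_toFn {P : (ZMod p)[X]} (h : P.natDegree ≤ m) : ofFn (m + 1) (toFn (m + 1) P) = P :=
  ofFn_comp_toFn_eq_id_of_natDegree_lt (Nat.lt_succ_of_le h)

theorem natDegree_ofFn (v : Fin (m + 1) → ZMod p) : (ofFn (m + 1) v).natDegree ≤ m :=
  Nat.le_of_lt_succ (ofFn_natDegree_lt (by omega) v)

theorem card_option (P : Option (ZMod p) → Prop) [DecidablePred P] (k : ℕ)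
    (h : (univ.filter fun t : ZMod p => P (some t)).card ≤ k) :
    (univ.filter P).card ≤ k + 1 := by
  classical
  have h1 : univ.filter P ⊆ insert none ((univ.filter fun t : ZMod p => P (some t)).image some) := by
    intro z hz
    rw [mem_filter] at hz
    rw [mem_insert]
    rcases z with _ | t
    · exact Or.inl rfl
    · exact Or.inr (mem_image.2 ⟨t, mem_filter.2 ⟨mem_univ _, hz.2⟩, rfl⟩)
  calc (univ.filter P).card ≤ _ := card_le_card h1
    _ ≤ ((univ.filter fun t : ZMod p => P (some t)).image some).card + 1 := card_insert_le _ _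
    _ ≤ k + 1 := by
        have := card_image_le (s := univ.filter fun t : ZMod p => P (some t)) (f := some)
        omega

theorem card_zeros {P : (ZMod p)[X]} (hP : P ≠ 0) {k : ℕ} (hk : P.natDegree ≤ k) :
    (univ.filter fun t : ZMod p => P.eval t = 0).card ≤ k := by
  classical
  have h1 : (univ.filter fun t : ZMod p => P.eval t = 0) ⊆ P.roots.toFinset := by
    intro t ht
    rw [mem_filter] at ht
    rw [Multiset.mem_toFinset, mem_roots hP]
    exact ht.2
  exact (card_le_card h1).trans ((Multiset.toFinset_card_le _).trans ((card_roots' P).trans hk))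

theorem card_optZ : Fintype.card (Option (ZMod p)) = p + 1 := by
  rw [Fintype.card_option, ZMod.card]

theorem fv_indep (hm : 1 ≤ m) (z w : Option (ZMod p)) (hzw : z ≠ w) :
    ∃ v, fv m z v ≠ 0 ∧ fv m w v = 0 := by
  rcases z with _ | t
  · rcases w with _ | s
    · exact absurd rfl hzw
    · have hmonic : ((X - C s) * X ^ (m - 1) : (ZMod p)[X]).Monic :=
        (monic_X_sub_C s).mul (monic_X_pow _)
      have hdeg : ((X - C s) * X ^ (m - 1) : (ZMod p)[X]).natDegree = m := by
        rw [(monic_X_sub_C s).natDegree_mul (monic_X_pow _), natDegree_X_sub_C, natDegree_X_pow]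
        omega
      refine ⟨toFn (m + 1) ((X - C s) * X ^ (m - 1)), ?_, ?_⟩
      · rw [fv_none, ofFn_toFn hdeg.le]
        have := hmonic.coeff_natDegree
        rw [hdeg] at this
        rw [this]
        exact one_ne_zero
      · rw [fv_some, ofFn_toFn hdeg.le]
        simp
  · rcases w with _ | s
    · have hdeg : (1 : (ZMod p)[X]).natDegree ≤ m := by simp
      refine ⟨toFn (m + 1) 1, ?_, ?_⟩
      · rw [fv_some, ofFn_toFn hdeg]
        simp
      · rw [fv_none, ofFn_toFn hdeg, coeff_one, if_neg (by omega)]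
    · have hdeg : (X - C s : (ZMod p)[X]).natDegree ≤ m := by
        rw [natDegree_X_sub_C]
        exact hm
      have hts : t - s ≠ 0 := fun h => hzw (by rw [sub_eq_zero.1 h])
      refine ⟨toFn (m + 1) (X - C s), ?_, ?_⟩
      · rw [fv_some, ofFn_toFn hdeg]
        simpa using hts
      · rw [fv_some, ofFn_toFn hdeg]
        simp

/-- The forms of degree `m` without zeros. -/
noncomputable def zf (p m : ℕ) [Fact p.Prime] : Finset (Fin (m + 1) → ZMod p) :=
  univ.filter fun v => ∀ z, fv m z v ≠ 0

theorem card_zf (hm : 2 ≤ m) (hpm : 2 * (m + 4) ≤ p) :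
    (p : ℝ) ^ (m + 1) / (2 * (m + 1)) ≤ ((zf p m).card : ℝ) := by
  classical
  have h := sieve (p := p) card_optZ (fv m) (fv_indep (by omega)) (m + 1) (by omega)
    ({0} : Finset (Fin (m + 1) → ZMod p)) (fun v hv => by
      rw [mem_singleton] at hv
      apply card_option
      apply card_zeros (P := ofFn (m + 1) v)
      · intro h0
        apply hv
        apply injective_ofFn (m + 1)
        rw [h0, map_zero]
      · exact natDegree_ofFn v)
  have hp0 : (0 : ℝ) < p := by exact_mod_cast hp.out.pos
  have hp1 : (1 : ℝ) ≤ p := by exact_mod_cast hp.out.one_lt.le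
  have hpm' : 2 * ((m : ℝ) + 4) ≤ p := by exact_mod_cast hpm
  rw [card_singleton, Fintype.card_fun, ZMod.card, Fintype.card_fin] at h
  push_cast at h
  have h1 : ((p : ℝ) + 1) ^ 2 ≤ 4 * p ^ m := by
    have h2 : (p : ℝ) ^ 2 ≤ p ^ m := pow_le_pow_right₀ hp1 hm
    nlinarith
  have h3 : (p : ℝ) ^ (m + 1) * (1 - ((m : ℝ) + 1 - 1) / p) = p ^ (m + 1) - m * p ^ m := by
    rw [pow_succ]
    field_simp
    ring
  rw [h3] at h
  have h4 : 2 * ((m : ℝ) + 4) * p ^ m ≤ p ^ (m + 1) := by
    rw [pow_succ, mul_comm ((p : ℝ) ^ m) p]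
    exact mul_le_mul_of_nonneg_right hpm' (by positivity)
  rw [div_le_iff₀ (by positivity)]
  have h5 : (univ.filter fun v => ∀ z, fv (p := p) m z v ≠ 0) = zf p m := rfl
  rw [h5] at h
  nlinarith

/-- The Jacobian of the pair. -/
noncomputable def ww (U : (ZMod p)[X]) (m : ℕ) : (Fin (m + 1) → ZMod p) →ₗ[ZMod p] (ZMod p)[X] :=
  ((LinearMap.mulLeft (ZMod p) U).comp Polynomial.derivative -
    LinearMap.mulLeft (ZMod p) (derivative U)).comp (Polynomial.ofFn (m + 1))

theorem ww_apply (U : (ZMod p)[X]) (v : Fin (m + 1) → ZMod p) :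
    ww U m v = U * derivative (ofFn (m + 1) v) - derivative U * ofFn (m + 1) v := rfl

/-- The functionals given by the values of the Jacobian. -/
noncomputable def fw (U : (ZMod p)[X]) (m : ℕ) :
    Option (ZMod p) → (Fin (m + 1) → ZMod p) →ₗ[ZMod p] ZMod p
  | none => (U.coeff (m - 1) • Polynomial.lcoeff (ZMod p) m -
      U.coeff m • Polynomial.lcoeff (ZMod p) (m - 1)).comp (Polynomial.ofFn (m + 1))
  | some t => (Polynomial.leval t).comp (ww U m)

theorem fw_none (U : (ZMod p)[X]) (v : Fin (m + 1) → ZMod p) : fw U m none v =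
    U.coeff (m - 1) * (ofFn (m + 1) v).coeff m - U.coeff m * (ofFn (m + 1) v).coeff (m - 1) := rfl

theorem fw_some (U : (ZMod p)[X]) (t : ZMod p) (v : Fin (m + 1) → ZMod p) :
    fw U m (some t) v = (U * derivative (ofFn (m + 1) v) - derivative U * ofFn (m + 1) v).eval t :=
  rfl

theorem fw_indep (hm : 3 ≤ m) (U : (ZMod p)[X]) (hU : ∀ t, U.eval t ≠ 0) (hU' : U.coeff m ≠ 0)
    (z w : Option (ZMod p)) (hzw : z ≠ w) :
    ∃ v, fw U m z v ≠ 0 ∧ fw U m w v = 0 := by
  rcases z with _ | t
  · rcases w with _ | s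
    · exact absurd rfl hzw
    · have hmonic : ((X - C s) ^ 2 * X ^ (m - 3) : (ZMod p)[X]).Monic :=
        ((monic_X_sub_C s).pow 2).mul (monic_X_pow _)
      have hdeg : ((X - C s) ^ 2 * X ^ (m - 3) : (ZMod p)[X]).natDegree = m - 1 := by
        rw [((monic_X_sub_C s).pow 2).natDegree_mul (monic_X_pow _), natDegree_pow,
          natDegree_X_sub_C, natDegree_X_pow]
        omega
      refine ⟨toFn (m + 1) ((X - C s) ^ 2 * X ^ (m - 3)), ?_, ?_⟩
      · have h1 : ((X - C s) ^ 2 * X ^ (m - 3) : (ZMod p)[X]).coeff m = 0 :=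
          coeff_eq_zero_of_natDegree_lt (by omega)
        have := hmonic.coeff_natDegree
        rw [hdeg] at this
        rw [fw_none, ofFn_toFn (by omega), h1, this, mul_zero, zero_sub, mul_one]
        exact neg_ne_zero.2 hU'
      · rw [fw_some, ofFn_toFn (by omega)]
        simp [derivative_pow]
  · rcases w with _ | s
    · have hdeg : (X - C t : (ZMod p)[X]).natDegree = 1 := natDegree_X_sub_C t
      refine ⟨toFn (m + 1) (X - C t), ?_, ?_⟩
      · rw [fw_some, ofFn_toFn (by omega)]
        simpa using hU t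
      · have h1 : (X - C t : (ZMod p)[X]).coeff m = 0 :=
          coeff_eq_zero_of_natDegree_lt (by omega)
        have h2 : (X - C t : (ZMod p)[X]).coeff (m - 1) = 0 :=
          coeff_eq_zero_of_natDegree_lt (by omega)
        rw [fw_none, ofFn_toFn (by omega), h1, h2, mul_zero, mul_zero, sub_zero]
    · have hmonic : ((X - C s) ^ 2 * (X - C t) : (ZMod p)[X]).Monic :=
        ((monic_X_sub_C s).pow 2).mul (monic_X_sub_C t)
      have hdeg : ((X - C s) ^ 2 * (X - C t) : (ZMod p)[X]).natDegree = 3 := by
        rw [((monic_X_sub_C s).pow 2).natDegree_mul (monic_X_sub_C t), natDegree_pow,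
          natDegree_X_sub_C, natDegree_X_sub_C]
      have hts : t - s ≠ 0 := fun h => hzw (by rw [sub_eq_zero.1 h])
      refine ⟨toFn (m + 1) ((X - C s) ^ 2 * (X - C t)), ?_, ?_⟩
      · rw [fw_some, ofFn_toFn (by omega)]
        simp only [derivative_mul, derivative_pow, derivative_X_sub_C, eval_sub, eval_mul,
          eval_add, eval_pow, eval_X, eval_C, sub_self, mul_zero, zero_add, mul_one, sub_zero]
        exact mul_ne_zero (hU t) (pow_ne_zero 2 hts)
      · rw [fw_some, ofFn_toFn (by omega)]
        simp [derivative_pow]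

/-- The kernel of the Jacobian. -/
theorem ww_ker (hpm : m < p) (hm : 1 ≤ m) (u v : Fin (m + 1) → ZMod p)
    (hU' : (ofFn (m + 1) u).coeff m ≠ 0) (h : ww (ofFn (m + 1) u) m v = 0) :
    ∃ c : ZMod p, v = c • u := by
  set U := ofFn (m + 1) u with hU
  refine ⟨(ofFn (m + 1) v).coeff m / U.coeff m, ?_⟩
  set c := (ofFn (m + 1) v).coeff m / U.coeff m with hc
  have h1 : ww U m (v - c • u) = 0 := by
    rw [map_sub, map_smul, h, ww_apply, ← hU]
    ring_nf
    simp
  set V := ofFn (m + 1) (v - c • u) with hV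
  have hVm : V.coeff m = 0 := by
    rw [hV, map_sub, map_smul, coeff_sub, coeff_smul, smul_eq_mul, ← hU, hc,
      div_mul_cancel₀ _ hU', sub_self]
  have hV0 : V = 0 := by
    by_contra hne
    set k := V.natDegree with hk
    have hkm : k < m := by
      refine lt_of_le_of_ne (natDegree_ofFn _) ?_
      intro h2
      apply hne
      rw [← leadingCoeff_eq_zero, leadingCoeff, ← hk, h2, hVm]
    have hVk : V.coeff k ≠ 0 := by
      rw [hk]
      exact leadingCoeff_ne_zero.2 hne
    rw [ww_apply, ← hV] at h1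
    have hUdeg : U.natDegree ≤ m := natDegree_ofFn u
    have hU'deg : (derivative U).natDegree ≤ m - 1 :=
      (natDegree_derivative_le U).trans (by omega)
    have hkey : ((k : ZMod p) - m) * (U.coeff m * V.coeff k) = 0 := by
      have h2 : (derivative U * V).coeff ((m - 1) + k) = m * U.coeff m * V.coeff k := by
        rw [coeff_mul_add_eq_of_natDegree_le hU'deg (le_of_eq hk.symm), coeff_derivative]
        have h3 : m - 1 + 1 = m := by omega
        have h4 : (((m - 1 : ℕ) : ZMod p) + 1) = m := by
          exact_mod_cast congrArg (Nat.cast (R := ZMod p)) h3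
        rw [h3, h4]
        ring
      rcases Nat.eq_zero_or_pos k with hk0 | hk0
      · have h5 : derivative V = 0 := by
          rw [eq_C_of_natDegree_eq_zero (hk.symm.trans hk0), derivative_C]
        have h6 := congrArg (fun P : (ZMod p)[X] => P.coeff ((m - 1) + k)) h1
        simp only [h5, mul_zero, zero_sub, coeff_neg, coeff_zero] at h6
        rw [h2] at h6
        rw [hk0] at h6 ⊢
        push_cast
        linear_combination h6
      · have hV'deg : (derivative V).natDegree ≤ k - 1 :=
          (natDegree_derivative_le V).trans (by omega)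
        have h5 : (U * derivative V).coeff ((m - 1) + k) = U.coeff m * (k * V.coeff k) := by
          have h6 : m - 1 + k = m + (k - 1) := by omega
          rw [h6, coeff_mul_add_eq_of_natDegree_le hUdeg hV'deg, coeff_derivative]
          have h3 : k - 1 + 1 = k := by omega
          have h4 : (((k - 1 : ℕ) : ZMod p) + 1) = k := by
            exact_mod_cast congrArg (Nat.cast (R := ZMod p)) h3
          rw [h3, h4]
          ring
        have h6 := congrArg (fun P : (ZMod p)[X] => P.coeff ((m - 1) + k)) h1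
        simp only [coeff_sub, coeff_zero] at h6
        rw [h2, h5] at h6
        linear_combination h6
    rcases mul_eq_zero.1 hkey with h2 | h2
    · have h3 : ((m - k : ℕ) : ZMod p) = 0 := by
        rw [Nat.cast_sub hkm.le]
        linear_combination -h2
      rw [ZMod.natCast_eq_zero_iff] at h3
      have := Nat.le_of_dvd (by omega) h3
      omega
    · rcases mul_eq_zero.1 h2 with h3 | h3
      · exact hU' h3
      · exact hVk h3
  have h2 : v - c • u = 0 := by
    apply injective_ofFn (m + 1)
    rw [← hV, hV0, map_zero]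
  exact sub_eq_zero.1 h2

/-- The forms whose Jacobian with `u` has no zero. -/
noncomputable def zw (p m : ℕ) [Fact p.Prime] (u : Fin (m + 1) → ZMod p) :
    Finset (Fin (m + 1) → ZMod p) :=
  univ.filter fun v => ∀ z, fw (ofFn (m + 1) u) m z v ≠ 0

theorem card_zw (hm : 3 ≤ m) (hpm : 2 * (2 * m + 4) ≤ p) (u : Fin (m + 1) → ZMod p)
    (hu : u ∈ zf p m) :
    (p : ℝ) ^ (m + 1) / (2 * (2 * m + 1)) ≤ ((zw p m u).card : ℝ) := by
  classical
  have hu' : ∀ z, fv m z u ≠ 0 := (mem_filter.1 hu).2
  have hU : ∀ t, (ofFn (m + 1) u).eval t ≠ 0 := fun t => hu' (some t)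
  have hU' : (ofFn (m + 1) u).coeff m ≠ 0 := hu' none
  have h := sieve (p := p) card_optZ (fw (ofFn (m + 1) u) m) (fw_indep hm _ hU hU') (2 * m + 1)
    (by omega) ((univ : Finset (ZMod p)).image fun c => c • u) (fun v hv => by
      apply card_option
      apply card_zeros (P := ww (ofFn (m + 1) u) m v)
      · intro h0
        apply hv
        obtain ⟨c, hc⟩ := ww_ker (by omega) (by omega) u v hU' h0
        exact mem_image.2 ⟨c, mem_univ _, hc.symm⟩
      · rw [ww_apply]
        refine (natDegree_sub_le _ _).trans (max_le ?_ ?_)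
        · refine natDegree_mul_le.trans ?_
          have h1 := natDegree_ofFn u
          have h2 := natDegree_derivative_le (ofFn (m + 1) v)
          have h3 := natDegree_ofFn v
          omega
        · refine natDegree_mul_le.trans ?_
          have h1 := natDegree_ofFn v
          have h2 := natDegree_derivative_le (ofFn (m + 1) u)
          have h3 := natDegree_ofFn u
          omega)
  have hp0 : (0 : ℝ) < p := by exact_mod_cast hp.out.pos
  have hp1 : (1 : ℝ) ≤ p := by exact_mod_cast hp.out.one_lt.le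
  have hpm' : 2 * (2 * (m : ℝ) + 4) ≤ p := by exact_mod_cast hpm
  have hcard : ((((univ : Finset (ZMod p)).image fun c => c • u).card : ℕ) : ℝ) ≤ p := by
    have h1 := card_image_le (s := (univ : Finset (ZMod p))) (f := fun c => c • u)
    rw [card_univ, ZMod.card] at h1
    exact_mod_cast h1
  rw [Fintype.card_fun, ZMod.card, Fintype.card_fin] at h
  push_cast at h
  have h1 : ((p : ℝ) + 1) ^ 2 * p ≤ 4 * p ^ m := by
    have h2 : (p : ℝ) ^ 3 ≤ p ^ m := pow_le_pow_right₀ hp1 hm
    nlinarith [mul_nonneg hp0.le hp0.le, mul_nonneg (mul_nonneg hp0.le hp0.le) (sub_nonneg.2 hp1)]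
  have h1' : ((p : ℝ) + 1) ^ 2 * (((univ : Finset (ZMod p)).image fun c => c • u).card : ℝ) ≤
      4 * p ^ m := (mul_le_mul_of_nonneg_left hcard (by positivity)).trans h1
  have h3 : (p : ℝ) ^ (m + 1) * (1 - (2 * (m : ℝ) + 1 - 1) / p) = p ^ (m + 1) - 2 * m * p ^ m := by
    rw [pow_succ]
    field_simp
    ring
  rw [h3] at h
  have h4 : 2 * (2 * (m : ℝ) + 4) * p ^ m ≤ p ^ (m + 1) := by
    rw [pow_succ, mul_comm ((p : ℝ) ^ m) p]
    exact mul_le_mul_of_nonneg_right hpm' (by positivity)
  rw [div_le_iff₀ (by positivity)]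
  have h5 : (univ.filter fun v => ∀ z, fw (ofFn (m + 1) u) m z v ≠ 0) = zw p m u := rfl
  rw [h5] at h
  nlinarith

end Pool.Agent.T6.H91.HP
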