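import Pool.Agent.TH888.B1.Roots
import Pool.Agent.W522.C.C1

set_option autoImplicit false

/-! If an integral polynomial has no root modulo one prime then the sum of the reciprocals of the
primes modulo which it has no root diverges. -/

namespace Pool.Agent.T6.H91.HP

open NumberField Polynomial Pool.Agent.W401.Cheb Pool.Agent.TH888.B1

/-- A Frobenius element at any prime. -/
theorem exists_frob_hom (L : Type) [Field L] [NumberField L] [IsGalois ℚ L] (q : ℕ)
    [hq : Fact q.Prime] :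
    ∃ (g : Gal(L/ℚ)) (φ : 𝓞 L →+* AlgebraicClosure (ZMod q)), ∀ x : 𝓞 L,
      φ (g • x) = φ x ^ q := by
  have hℓ : (q : ℤ) ≠ 0 := by exact_mod_cast hq.out.ne_zero
  have hP : (Ideal.span {(q : ℤ)}).IsPrime := by
    rw [Ideal.span_singleton_prime hℓ]
    exact Nat.prime_iff_prime_int.1 hq.out
  obtain ⟨Q, -, hQ, hQP⟩ := Ideal.exists_ideal_over_prime_of_isIntegral
    (R := ℤ) (S := 𝓞 L) (Ideal.span {(q : ℤ)}) ⊥ (by
      rw [← RingHom.ker_eq_comap_bot, (RingHom.injective_iff_ker_eq_bot _).1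
        (FaithfulSMul.algebraMap_injective ℤ (𝓞 L))]
      exact bot_le)
  have hmem : (q : 𝓞 L) ∈ Q := by
    have h1 : (q : ℤ) ∈ Ideal.comap (algebraMap ℤ (𝓞 L)) Q := by
      rw [hQP]
      exact Ideal.mem_span_singleton_self _
    rw [Ideal.mem_comap] at h1
    simpa using h1
  have hQ0 : Q ≠ ⊥ := by
    rintro rfl
    rw [Ideal.mem_bot] at hmem
    exact hq.out.ne_zero (by exact_mod_cast hmem)
  have hfin : Finite (𝓞 L ⧸ Q) := Ideal.finiteQuotientOfFreeOfNeBot Q hQ0
  have hmax : Q.IsMaximal := hQ.isMaximal hQ0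
  obtain ⟨g, hg⟩ := IsArithFrobAt.exists_of_isInvariant ℤ (L ≃ₐ[ℚ] L) Q
  have hcard : Nat.card (ℤ ⧸ Q.under ℤ) = q := by
    have h3 : Q.under ℤ = Ideal.span {(q : ℤ)} := hQP
    rw [h3, Nat.card_congr (Int.quotientSpanNatEquivZMod q).toEquiv, Nat.card_zmod]
  let _ : Field (𝓞 L ⧸ Q) := Ideal.Quotient.field Q
  have hchar : CharP (𝓞 L ⧸ Q) q := by
    have h4 : ((q : ℕ) : 𝓞 L ⧸ Q) = 0 := by
      have h7 := Ideal.Quotient.eq_zero_iff_mem.2 hmem
      rwa [map_natCast] at h7
    exact (CharP.charP_iff_prime_eq_zero hq.out).2 h4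
  obtain ⟨e⟩ := Pool.Agent.W522.C.exists_emb (ℓ := q) (𝓞 L ⧸ Q)
  refine ⟨g, e.comp (Ideal.Quotient.mk Q), fun x => ?_⟩
  have h1 := hg x
  rw [hcard] at h1
  rw [RingHom.comp_apply, RingHom.comp_apply, ← map_pow, ← map_pow]
  congr 1
  rw [Ideal.Quotient.eq]
  exact h1

theorem noRoot_aux (L : Type) [Field L] [NumberField L] [IsGalois ℚ L] (f : ℤ[X]) (hf : f ≠ 0)
    (hsp : (f.map (algebraMap ℤ L)).Splits) (g : Gal(L/ℚ))
    (hg : ∀ α : L, aeval α f = 0 → g α ≠ α) :
    ¬ Summable (fun n : ℕ => ({p : ℕ | p.Prime ∧ ¬ (p : ℤ) ∣ f.leadingCoeff ∧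
      ∀ t : ZMod p, (f.map (Int.castRingHom (ZMod p))).eval t ≠ 0}).indicator
        (fun n : ℕ => (1 : ℝ) / n) n) := by
  classical
  have hlc : f.leadingCoeff ≠ 0 := by
    rwa [Ne, leadingCoeff_eq_zero]
  have hinj : Function.Injective (algebraMap ℤ L) := (algebraMap ℤ L).injective_int
  set lc := f.leadingCoeff with hlcdef
  have hY : ∀ α : L, ∃ y : 𝓞 L, aeval α f = 0 → (y : L) = lc * α := by
    intro α
    by_cases hα : aeval α f = 0
    · have hint : IsIntegral ℤ (f.leadingCoeff • α) := isIntegral_leadingCoeff_smul f α hα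
      refine ⟨⟨_, hint⟩, fun _ => ?_⟩
      change (f.leadingCoeff • α : L) = _
      rw [zsmul_eq_mul]
    · exact ⟨0, fun h => absurd h hα⟩
  choose Y hY using hY
  set R := (f.map (algebraMap ℤ L)).roots with hR
  have hRroot : ∀ α ∈ R, aeval α f = 0 := by
    intro α hα
    rw [hR, mem_roots', IsRoot.def, eval_map_algebraMap] at hα
    exact hα.2
  set δ : 𝓞 L := (R.map fun α => g • Y α - Y α).prod with hδ
  have hδ0 : δ ≠ 0 := by
    rw [hδ, Ne, Multiset.prod_eq_zero_iff, Multiset.mem_map]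
    rintro ⟨α, hα, h⟩
    apply hg α (hRroot α hα)
    have h1 : g • Y α = Y α := sub_eq_zero.1 h
    have h2 : ((g • Y α : 𝓞 L) : L) = g (Y α : L) := rfl
    rw [h1, hY α (hRroot α hα), map_mul, map_intCast] at h2
    have h3 : (lc : L) ≠ 0 := by exact_mod_cast hlc
    exact (mul_left_cancel₀ h3 h2).symm
  -- the polynomial identity
  have hid : (lc : (𝓞 L)[X]) ^ Multiset.card R * f.map (algebraMap ℤ (𝓞 L)) =
      (lc : (𝓞 L)[X]) * (R.map fun α => (lc : (𝓞 L)[X]) * X - C (Y α)).prod := by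
    apply Polynomial.map_injective (algebraMap (𝓞 L) L) (RingOfIntegers.coe_injective)
    rw [Polynomial.map_mul, Polynomial.map_mul, Polynomial.map_map, Polynomial.map_multiset_prod,
      Multiset.map_map]
    have h1 : (algebraMap (𝓞 L) L).comp (algebraMap ℤ (𝓞 L)) = algebraMap ℤ L :=
      RingHom.ext_int _ _
    rw [h1]
    have h2 := hsp.eq_prod_roots
    rw [Polynomial.leadingCoeff_map_of_injective hinj] at h2
    have h3 : (R.map ((fun q : (𝓞 L)[X] => q.map (algebraMap (𝓞 L) L)) ∘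
        fun α => (lc : (𝓞 L)[X]) * X - C (Y α))) =
        R.map fun α => (lc : L[X]) * (X - C α) := by
      apply Multiset.map_congr rfl
      intro α hα
      simp only [Function.comp_apply, Polynomial.map_sub, Polynomial.map_mul, map_C, map_X,
        Polynomial.map_intCast]
      have h4 : algebraMap (𝓞 L) L (Y α) = lc * α := hY α (hRroot α hα)
      rw [h4, C_mul, mul_sub, map_intCast]
    rw [h3, Multiset.prod_map_mul, Multiset.map_const', Multiset.prod_replicate]
    rw [Polynomial.map_pow, Polynomial.map_intCast]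
    conv_lhs => rw [h2]
    have h4 : C ((algebraMap ℤ L) f.leadingCoeff) = (lc : L[X]) := by simp [hlcdef]
    rw [h4]
    ring
  have h1 := frob_diverges L g
  have hfin : {p : ℕ | (p : ℤ) ∣ lc ∨ p ∣ Ideal.absNorm (Ideal.span {δ})}.Finite := by
    have hN : Ideal.absNorm (Ideal.span {δ}) ≠ 0 := by
      rw [Ne, Ideal.absNorm_eq_zero_iff, Ideal.span_singleton_eq_bot]
      exact hδ0
    apply (Set.finite_Icc 0 (lc.natAbs + Ideal.absNorm (Ideal.span {δ}))).subset
    rintro p (hp | hp)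
    · rw [Int.natCast_dvd] at hp
      have := Nat.le_of_dvd (Int.natAbs_pos.mpr hlc) hp
      exact ⟨Nat.zero_le _, by omega⟩
    · have := Nat.le_of_dvd (Nat.pos_of_ne_zero hN) hp
      exact ⟨Nat.zero_le _, by omega⟩
  refine diverges_mono ?_ (diverges_diff hfin h1)
  rintro p ⟨⟨hp, hx⟩, hpl⟩
  have : Fact p.Prime := ⟨hp⟩
  rw [Set.mem_ofPred_eq, not_or] at hpl
  obtain ⟨φ, hφ⟩ := exists_hom g hp hx
  refine ⟨hp, hpl.1, fun t ht => hpl.2 ?_⟩
  -- a root modulo `p`
  have hlc0 : ((lc : ℤ) : AlgebraicClosure (ZMod p)) ≠ 0 := by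
    intro h0
    apply hpl.1
    have h2 : algebraMap (ZMod p) (AlgebraicClosure (ZMod p)) ((lc : ℤ) : ZMod p) = 0 := by
      rw [map_intCast]
      exact h0
    rw [map_eq_zero] at h2
    exact (ZMod.intCast_zmod_eq_zero_iff_dvd _ p).1 h2
  set T : AlgebraicClosure (ZMod p) := algebraMap (ZMod p) _ t with hT
  have h2 := congrArg (fun P : (𝓞 L)[X] => (P.map φ).eval T) hid
  simp only [Polynomial.map_mul, Polynomial.map_map, eval_mul, Polynomial.map_pow, eval_pow,
    Polynomial.map_intCast, eval_intCast] at h2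
  have h3 : (f.map (φ.comp (algebraMap ℤ (𝓞 L)))).eval T = 0 := by
    have h4 : φ.comp (algebraMap ℤ (𝓞 L)) = (algebraMap (ZMod p)
        (AlgebraicClosure (ZMod p))).comp (Int.castRingHom (ZMod p)) := RingHom.ext_int _ _
    rw [h4, ← Polynomial.map_map, hT, eval_map_apply, ht, map_zero]
  rw [h3, mul_zero, Polynomial.map_multiset_prod, Multiset.map_map, eval_multiset_prod,
    Multiset.map_map] at h2
  have h5 := (mul_eq_zero.1 h2.symm).resolve_left hlc0
  rw [Multiset.prod_eq_zero_iff, Multiset.mem_map] at h5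
  obtain ⟨α, hα, h6⟩ := h5
  simp only [Function.comp_apply, Polynomial.map_sub, Polynomial.map_mul, map_C, map_X,
    eval_sub, eval_mul, eval_C, eval_X, Polynomial.map_intCast, eval_intCast] at h6
  have h7 : φ (Y α) = (lc : AlgebraicClosure (ZMod p)) * T := (sub_eq_zero.1 h6).symm
  have h8 : φ (g • Y α - Y α) = 0 := by
    rw [map_sub, hφ, h7, sub_eq_zero, mul_pow]
    have e1 : ((lc : ℤ) : AlgebraicClosure (ZMod p)) ^ p = (lc : AlgebraicClosure (ZMod p)) := by
      have : ((lc : ℤ) : AlgebraicClosure (ZMod p)) =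
          algebraMap (ZMod p) (AlgebraicClosure (ZMod p)) (lc : ZMod p) := by rw [map_intCast]
      rw [this, ← map_pow, ZMod.pow_card]
    have e2 : T ^ p = T := by
      rw [hT, ← map_pow, ZMod.pow_card]
    rw [e1, e2]
  have h9 : g • Y α - Y α ∣ δ := Multiset.dvd_prod (Multiset.mem_map.2 ⟨α, hα, rfl⟩)
  have h10 := Ideal.absNorm_mem (Ideal.span {δ})
  rw [Ideal.mem_span_singleton] at h10
  obtain ⟨y, hy⟩ := h9.trans h10
  have h11 := congrArg φ hy
  rw [map_mul, h8, zero_mul, map_natCast] at h11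
  have hchar : CharP (AlgebraicClosure (ZMod p)) p :=
    charP_of_injective_algebraMap (algebraMap (ZMod p) (AlgebraicClosure (ZMod p))).injective p
  exact (CharP.cast_eq_zero_iff _ p _).1 h11

theorem map_aux (f : ℤ[X]) (F : ℚ[X]) (hF : F = f.map (Int.castRingHom ℚ)) (L : Type) [Field L]
    [Algebra ℚ L] : F.map (algebraMap ℚ L) = f.map (algebraMap ℤ L) := by
  subst hF
  rw [Polynomial.map_map]
  congr 1
  exact RingHom.ext_int _ _

/-- **No root modulo one prime.** -/
theorem noRoot_diverges (f : ℤ[X]) (q : ℕ) [hq : Fact q.Prime]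
    (hlc : ¬ (q : ℤ) ∣ f.leadingCoeff)
    (h : ∀ t : ZMod q, (f.map (Int.castRingHom (ZMod q))).eval t ≠ 0) :
    ¬ Summable (fun n : ℕ => ({p : ℕ | p.Prime ∧ ¬ (p : ℤ) ∣ f.leadingCoeff ∧
      ∀ t : ZMod p, (f.map (Int.castRingHom (ZMod p))).eval t ≠ 0}).indicator
        (fun n : ℕ => (1 : ℝ) / n) n) := by
  have hf : f ≠ 0 := by
    rintro rfl
    simp at hlc
  obtain ⟨F, hF⟩ : ∃ F : ℚ[X], F = f.map (Int.castRingHom ℚ) := ⟨_, rfl⟩
  have hS : IsSplittingField ℚ F.SplittingField F := IsSplittingField.splittingField F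
  have h1 : FiniteDimensional ℚ F.SplittingField := IsSplittingField.finiteDimensional _ F
  have h2 : CharZero F.SplittingField :=
    charZero_of_injective_algebraMap (algebraMap ℚ F.SplittingField).injective
  have hnf : NumberField F.SplittingField := ⟨⟩
  have hN : Normal ℚ F.SplittingField := Normal.of_isSplittingField F
  have hG : IsGalois ℚ F.SplittingField := ⟨⟩
  obtain ⟨g, φ, hφ⟩ := exists_frob_hom F.SplittingField q
  refine noRoot_aux F.SplittingField f hf ?_ g ?_
  · rw [← map_aux f F hF F.SplittingField]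
    exact SplittingField.splits F
  · intro α hα hgα
    have hint : IsIntegral ℤ (f.leadingCoeff • α) := isIntegral_leadingCoeff_smul f α hα
    obtain ⟨y, hy⟩ : ∃ y : 𝓞 F.SplittingField, (y : F.SplittingField) = f.leadingCoeff • α :=
      ⟨⟨_, hint⟩, rfl⟩
    have hyL : (y : F.SplittingField) = (f.leadingCoeff : F.SplittingField) * α := by
      rw [hy, zsmul_eq_mul]
    have hgy : g • y = y := by
      apply RingOfIntegers.coe_injective
      have h3 : ((g • y : 𝓞 F.SplittingField) : F.SplittingField) = g (y : F.SplittingField) := rfl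
      change ((g • y : 𝓞 F.SplittingField) : F.SplittingField) = (y : F.SplittingField)
      rw [h3, hyL, map_mul, map_intCast, hgα]
    have h4 : φ y ^ q = φ y := by
      rw [← hφ y, hgy]
    obtain ⟨z, hz⟩ := W54.ChTor.frob_fixed q (φ y) h4
    exact h _ (root_of_hom φ f α hα y f.leadingCoeff hyL hlc z hz)

end Pool.Agent.T6.H91.HP
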