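import Pool.Agent.T6.H91.HP.BC
import Pool.Agent.T6.H91.HP.NoRoot

set_option autoImplicit false

/-! Endomorphisms of the plane with a periodic line: the criterion with one prime. -/

namespace Pool.Agent.T6.H91.HP

open Pool.Agent.H936R2 Pool.Agent.H927R2.RD Filter Topology

section lc

open Polynomial

/-- The leading coefficient of the dehomogenisation of a binary form. -/
theorem lc_eq (Q Q' : ℤ[X]) (D : ℕ)
    (h : ∀ t : ℚ, t ≠ 0 → (Q'.map (Int.castRingHom ℚ)).eval t =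
      t ^ D * (Q.map (Int.castRingHom ℚ)).eval t⁻¹) (h0 : Q'.coeff 0 ≠ 0) :
    Q.leadingCoeff = Q'.coeff 0 := by
  have hid : X ^ Q.natDegree * Q' = X ^ D * Q.reverse := by
    apply Polynomial.map_injective (Int.castRingHom ℚ) (Int.castRingHom ℚ).injective_int
    apply Polynomial.eq_of_infinite_eval_eq
    apply Set.Infinite.mono (s := {t : ℚ | t ≠ 0})
    · intro t ht
      have ht0 : t ≠ 0 := ht
      simp only [Set.mem_ofPred_eq, Polynomial.map_mul, Polynomial.map_pow, map_X, eval_mul,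
        eval_pow, eval_X]
      rw [h t ht0]
      have : Invertible t⁻¹ := invertibleOfNonzero (inv_ne_zero ht0)
      have h1 := eval₂_reverse_mul_pow (Int.castRingHom ℚ) t⁻¹ Q
      rw [invOf_eq_inv, inv_inv, ← eval_map, ← eval_map] at h1
      rw [← h1]
      have h2 : t ^ Q.natDegree * (t⁻¹) ^ Q.natDegree = 1 := by
        rw [← mul_pow, mul_inv_cancel₀ ht0, one_pow]
      linear_combination (t ^ D * (Q.reverse.map (Int.castRingHom ℚ)).eval t) * h2
    · exact (Set.infinite_univ (α := ℚ)).diff (Set.finite_singleton 0) |>.mono (by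
        intro t ht
        exact ht.2)
  have hQ : Q ≠ 0 := by
    rintro rfl
    simp only [natDegree_zero, pow_zero, one_mul, reverse_zero, mul_zero] at hid
    rw [hid] at h0
    simp at h0
  rcases lt_trichotomy Q.natDegree D with hlt | heq | hgt
  · exfalso
    obtain ⟨k, rfl⟩ := Nat.exists_eq_add_of_lt hlt
    have h1 : Q' = X ^ (k + 1) * Q.reverse := by
      apply mul_left_cancel₀ (pow_ne_zero Q.natDegree (X_ne_zero (R := ℤ)))
      rw [hid, Nat.add_assoc, pow_add]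
      ring
    rw [h1, coeff_zero_eq_eval_zero] at h0
    simp at h0
  · rw [heq] at hid
    have h1 := mul_left_cancel₀ (pow_ne_zero D (X_ne_zero (R := ℤ))) hid
    rw [h1, coeff_zero_reverse]
  · exfalso
    obtain ⟨k, hk⟩ := Nat.exists_eq_add_of_lt hgt
    have h1 : X ^ (k + 1) * Q' = Q.reverse := by
      apply mul_left_cancel₀ (pow_ne_zero D (X_ne_zero (R := ℤ)))
      rw [← hid, hk, Nat.add_assoc, pow_add]
      ring
    have h2 := congrArg (fun P : ℤ[X] => P.coeff 0) h1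
    simp only [coeff_zero_reverse] at h2
    rw [coeff_zero_eq_eval_zero] at h2
    simp only [eval_mul, eval_pow, eval_X] at h2
    rw [zero_pow (by omega), zero_mul] at h2
    exact hQ (leadingCoeff_eq_zero.1 h2.symm)

end lc

variable {d : ℕ}

/-- The point `(0, x, y)`. -/
def lpt {R : Type} [Zero R] (x y : R) : Fin (2 + 1) → R := ![0, x, y]

theorem lpt_map {R R' : Type} [CommRing R] [CommRing R'] (φ : R →+* R') (x y : R) :
    (fun i => φ (lpt x y i)) = lpt (φ x) (φ y) := by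
  funext i
  fin_cases i
  · exact map_zero φ
  · rfl
  · rfl

theorem eq_lpt {R : Type} [Zero R] (z : Fin (2 + 1) → R) (h : z 0 = 0) : z = lpt (z 1) (z 2) := by
  funext i
  fin_cases i
  · exact h
  · rfl
  · rfl

theorem lpt_smul {R : Type} [CommRing R] (t x y : R) : t • lpt x y = lpt (t * x) (t * y) := by
  funext i
  fin_cases i
  · exact mul_zero t
  · rfl
  · rfl

/-- The line is mapped to itself over all rings. -/
theorem line_ring {F : Fin (2 + 1) → MvPolynomial (Fin (2 + 1)) ℤ} {l : ℕ}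
    (hline : ∀ z : Fin (2 + 1) → ℂ, z 0 = 0 → ((cmap F)^[l] z) 0 = 0)
    {R : Type} [CommRing R] (x y : R) : ((pt (overR R F))^[l] (lpt x y)) 0 = 0 := by
  set q : MvPolynomial (Fin 2) ℤ :=
    ((pt (overR (MvPolynomial (Fin 2) ℤ) F))^[l] (lpt (MvPolynomial.X 0) (MvPolynomial.X 1))) 0
    with hq
  have hval : ∀ (S : Type) [CommRing S] (u v : S),
      ((pt (overR S F))^[l] (lpt u v)) 0 =
        (MvPolynomial.eval₂Hom (Int.castRingHom S) ![u, v]) q := by
    intro S _ u v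
    have h1 := it_map (MvPolynomial.eval₂Hom (Int.castRingHom S) ![u, v]) F l
      (lpt (MvPolynomial.X 0) (MvPolynomial.X 1))
    rw [lpt_map] at h1
    simp only [MvPolynomial.eval₂Hom_X', Matrix.cons_val_zero, Matrix.cons_val_one] at h1
    exact congrFun h1 0
  have hq0 : q = 0 := by
    apply MvPolynomial.map_injective (Int.castRingHom ℂ) (Int.castRingHom ℂ).injective_int
    rw [map_zero]
    apply MvPolynomial.funext
    intro w
    rw [map_zero, MvPolynomial.eval_map]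
    have h1 := hval ℂ (w 0) (w 1)
    have h2 : ((pt (overR ℂ F))^[l] (lpt (w 0) (w 1))) 0 = 0 := hline _ rfl
    rw [h2] at h1
    have h3 : ![w 0, w 1] = w := by
      funext i
      fin_cases i <;> rfl
    rw [h3] at h1
    exact h1.symm
  rw [hval R x y, hq0, map_zero]

/-- The polynomials in one variable whose values are the Jacobian determinants on the line. -/
noncomputable def QQ (F : Fin (2 + 1) → MvPolynomial (Fin (2 + 1)) ℤ) (M l : ℕ) :
    Polynomial ℤ :=
  ∏ n ∈ Finset.Ico M (M + l), jd (Polynomial ℤ) F n (lpt 1 Polynomial.X)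

noncomputable def QR (F : Fin (2 + 1) → MvPolynomial (Fin (2 + 1)) ℤ) (M l : ℕ) :
    Polynomial ℤ :=
  ∏ n ∈ Finset.Ico M (M + l), jd (Polynomial ℤ) F n (lpt Polynomial.X 1)

theorem QQ_eval (F : Fin (2 + 1) → MvPolynomial (Fin (2 + 1)) ℤ) (M l : ℕ) {R : Type}
    [CommRing R] (t : R) : ((QQ F M l).map (Int.castRingHom R)).eval t =
      ∏ n ∈ Finset.Ico M (M + l), jd R F n (lpt 1 t) := by
  rw [QQ, Polynomial.eval_map, ← Polynomial.coe_eval₂RingHom, map_prod]
  apply Finset.prod_congr rfl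
  intro n _
  rw [← jd_map, lpt_map, map_one, Polynomial.coe_eval₂RingHom, Polynomial.eval₂_X]

theorem QR_eval (F : Fin (2 + 1) → MvPolynomial (Fin (2 + 1)) ℤ) (M l : ℕ) {R : Type}
    [CommRing R] (t : R) : ((QR F M l).map (Int.castRingHom R)).eval t =
      ∏ n ∈ Finset.Ico M (M + l), jd R F n (lpt t 1) := by
  rw [QR, Polynomial.eval_map, ← Polynomial.coe_eval₂RingHom, map_prod]
  apply Finset.prod_congr rfl
  intro n _
  rw [← jd_map, lpt_map, map_one, Polynomial.coe_eval₂RingHom, Polynomial.eval₂_X]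

theorem QR_zero (F : Fin (2 + 1) → MvPolynomial (Fin (2 + 1)) ℤ) (M l : ℕ) {R : Type}
    [CommRing R] : (((QR F M l).coeff 0 : ℤ) : R) =
      ∏ n ∈ Finset.Ico M (M + l), jd R F n (lpt 0 1) := by
  rw [← QR_eval, ← Polynomial.coeff_zero_eq_eval_zero, Polynomial.coeff_map]
  rfl

theorem QQ_lc {F : Fin (2 + 1) → MvPolynomial (Fin (2 + 1)) ℤ} (hF : ∀ i, (F i).IsHomogeneous d)
    (M l : ℕ) (h0 : (QR F M l).coeff 0 ≠ 0) :
    (QQ F M l).leadingCoeff = (QR F M l).coeff 0 := by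
  refine lc_eq _ _ (∑ n ∈ Finset.Ico M (M + l), d ^ n * (d - 1) * (2 + 1)) (fun t ht => ?_) h0
  rw [QQ_eval, QR_eval, ← Finset.prod_pow_eq_pow_sum, ← Finset.prod_mul_distrib]
  apply Finset.prod_congr rfl
  intro n _
  rw [← jd_smul hF, lpt_smul, mul_one, mul_inv_cancel₀ ht]

/-- The primes modulo which no point of the line is critical at the times `M ≤ n < M + l`. -/
def LP (F : Fin (2 + 1) → MvPolynomial (Fin (2 + 1)) ℤ) (M l : ℕ) : Set ℕ :=
  {p | p.Prime ∧ ∀ z : Fin (2 + 1) → ZMod p, z ≠ 0 → z 0 = 0 → ∀ n, M ≤ n → n < M + l →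
    jd (ZMod p) F n z ≠ 0}

theorem mem_LP {F : Fin (2 + 1) → MvPolynomial (Fin (2 + 1)) ℤ}
    (hF : ∀ i, (F i).IsHomogeneous d) (M l p : ℕ) (hp : p.Prime) :
    p ∈ LP F M l ↔ ¬ (p : ℤ) ∣ (QR F M l).coeff 0 ∧
      ∀ t : ZMod p, ((QQ F M l).map (Int.castRingHom (ZMod p))).eval t ≠ 0 := by
  have : Fact p.Prime := ⟨hp⟩
  have h1 : ¬ (p : ℤ) ∣ (QR F M l).coeff 0 ↔
      ∀ n ∈ Finset.Ico M (M + l), jd (ZMod p) F n (lpt 0 1) ≠ 0 := by
    rw [← Finset.prod_ne_zero_iff, ← QR_zero, Ne, ZMod.intCast_zmod_eq_zero_iff_dvd]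
  have h2 : ∀ t : ZMod p, ((QQ F M l).map (Int.castRingHom (ZMod p))).eval t ≠ 0 ↔
      ∀ n ∈ Finset.Ico M (M + l), jd (ZMod p) F n (lpt 1 t) ≠ 0 := by
    intro t
    rw [QQ_eval, Finset.prod_ne_zero_iff]
  simp only [h1, h2, Finset.mem_Ico]
  constructor
  · rintro ⟨-, h⟩
    refine ⟨fun n hn => h _ ?_ rfl n hn.1 hn.2, fun t n hn => h _ ?_ rfl n hn.1 hn.2⟩
    · intro h0
      exact one_ne_zero (congrFun h0 2)
    · intro h0
      exact one_ne_zero (congrFun h0 1)
  · rintro ⟨ha, hb⟩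
    refine ⟨hp, fun z hz hz0 n hn1 hn2 => ?_⟩
    rw [eq_lpt z hz0]
    by_cases hx : z 1 = 0
    · have hy : z 2 ≠ 0 := by
        intro hy
        apply hz
        rw [eq_lpt z hz0, hx, hy]
        funext i
        fin_cases i <;> rfl
      have h3 : lpt (z 1) (z 2) = z 2 • lpt (0 : ZMod p) 1 := by
        rw [lpt_smul, mul_zero, mul_one, hx]
      rw [h3, jd_smul hF]
      exact mul_ne_zero (pow_ne_zero _ hy) (ha n ⟨hn1, hn2⟩)
    · have h3 : lpt (z 1) (z 2) = z 1 • lpt (1 : ZMod p) (z 2 / z 1) := by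
        rw [lpt_smul, mul_one, mul_div_cancel₀ _ hx]
      rw [h3, jd_smul hF]
      exact mul_ne_zero (pow_ne_zero _ hx) (hb _ n ⟨hn1, hn2⟩)

/-- If one prime is good, then many primes are good. -/
theorem LP_diverges {F : Fin (2 + 1) → MvPolynomial (Fin (2 + 1)) ℤ}
    (hF : ∀ i, (F i).IsHomogeneous d) (M l q : ℕ) (hq : q ∈ LP F M l) :
    ¬ Summable (fun n : ℕ => (LP F M l).indicator (fun n : ℕ => (1 : ℝ) / n) n) := by
  have hqp : q.Prime := hq.1
  have : Fact q.Prime := ⟨hqp⟩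
  rw [mem_LP hF M l q hqp] at hq
  have h0 : (QR F M l).coeff 0 ≠ 0 := fun h => hq.1 (h ▸ dvd_zero _)
  have hlc := QQ_lc hF M l h0
  have h1 := noRoot_diverges (QQ F M l) q (by rw [hlc]; exact hq.1) hq.2
  refine TH888.B1.diverges_mono ?_ h1
  rintro p ⟨hp, hp1, hp2⟩
  rw [mem_LP hF M l p hp]
  rw [hlc] at hp1
  exact ⟨hp1, hp2⟩

/-- All the points of the line are étale for ever after the time `M`. -/
theorem LP_forever {F : Fin (2 + 1) → MvPolynomial (Fin (2 + 1)) ℤ} (hd : 2 ≤ d)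
    (hF : ∀ i, (F i).IsHomogeneous d) (M l : ℕ) (hl : 1 ≤ l)
    (hline : ∀ z : Fin (2 + 1) → ℂ, z 0 = 0 → ((cmap F)^[l] z) 0 = 0) (p : ℕ)
    (hp : p ∈ LP F M l) (z : Fin (2 + 1) → ZMod p) (hz : z ≠ 0) (hz0 : z 0 = 0) (n : ℕ)
    (hn : M ≤ n) : jd (ZMod p) F n z ≠ 0 := by
  have hpp : p.Prime := hp.1
  have : Fact p.Prime := ⟨hpp⟩
  have hpt0 : ∀ n : ℕ, (pt (overR (ZMod p) F))^[n] 0 = 0 := by
    intro n
    induction n with
    | zero => rfl
    | succ n ih =>
      rw [Function.iterate_succ_apply', ih]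
      funext i
      have h1 := T3b_eval_smul (overR_hom (R := ZMod p) hF i) 0 0
      rw [smul_zero, zero_pow (by omega), zero_mul] at h1
      exact h1
  have hstep : ∀ w : Fin (2 + 1) → ZMod p, w ≠ 0 → w 0 = 0 →
      (pt (overR (ZMod p) F))^[l] w ≠ 0 ∧ ((pt (overR (ZMod p) F))^[l] w) 0 = 0 := by
    intro w hw hw0
    constructor
    · intro h0
      have h1 := hp.2 w hw hw0 (M + l - 1) (by omega) (by omega)
      unfold jd at h1
      have h2 := ne_zero_of_jac hd hF _ h1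
      have h3 := pt_ne_zero hF _ h2 h1
      rw [← Function.iterate_succ_apply' (pt (overR (ZMod p) F))] at h3
      apply h3
      have h4 : (M + l - 1).succ = M + l := by omega
      rw [h4, Function.iterate_add_apply, h0, hpt0]
    · rw [eq_lpt w hw0]
      exact line_ring hline _ _
  have hit : ∀ k : ℕ, (pt (overR (ZMod p) F))^[l * k] z ≠ 0 ∧
      ((pt (overR (ZMod p) F))^[l * k] z) 0 = 0 := by
    intro k
    induction k with
    | zero => exact ⟨hz, hz0⟩
    | succ k ih =>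
      have h1 := hstep _ ih.1 ih.2
      rw [← Function.iterate_add_apply] at h1
      have h2 : l * (k + 1) = l + l * k := by ring
      rw [h2]
      exact h1
  have h1 : n = (M + (n - M) % l) + l * ((n - M) / l) := by
    have := Nat.mod_add_div (n - M) l
    omega
  rw [h1, jd_add]
  have h2 := hit ((n - M) / l)
  refine hp.2 _ h2.1 h2.2 _ (by omega) ?_
  have := Nat.mod_lt (n - M) (show 0 < l by omega)
  omega

/-- The integral points whose first coordinate is divisible by a good prime. -/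
theorem dml_of_LP {F : Fin (2 + 1) → MvPolynomial (Fin (2 + 1)) ℤ} (hd : 2 ≤ d)
    (hF : ∀ i, (F i).IsHomogeneous d) (M l : ℕ) (hl : 1 ≤ l)
    (hline : ∀ z : Fin (2 + 1) → ℂ, z 0 = 0 → ((cmap F)^[l] z) 0 = 0) (p : ℕ)
    (hp : p ∈ LP F M l) (α : Fin (2 + 1) → ℤ) (h0 : (p : ℤ) ∣ α 0)
    (h1 : ¬ ((p : ℤ) ∣ α 1 ∧ (p : ℤ) ∣ α 2)) : DMLAt F (fun i => (α i : ℂ)) := by
  have : Fact p.Prime := ⟨hp.1⟩
  refine dml_of_int hF α p M fun n hn => ?_
  refine LP_forever hd hF M l hl hline p hp _ ?_ ?_ n hn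
  · intro h
    apply h1
    constructor
    · exact (ZMod.intCast_zmod_eq_zero_iff_dvd _ p).1 (congrFun h 1)
    · exact (ZMod.intCast_zmod_eq_zero_iff_dvd _ p).1 (congrFun h 2)
  · exact (ZMod.intCast_zmod_eq_zero_iff_dvd _ p).2 h0

end Pool.Agent.T6.H91.HP
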