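import Pool.Agent.T6.H91.HP.Forms
import Pool.Agent.T6.H91.HP.Line

set_option autoImplicit false

/-! For almost all maps with an invariant line there is a good prime. -/

namespace Pool.Agent.T6.H91.HP

open Pool.Agent.H936R2 Pool.Agent.H927R2.RD Filter Topology

section bform

open MvPolynomial

/-- The binary form `∑ c_i x_1^(m-i) x_2^i`. -/
noncomputable def bform (m : ℕ) (c : Fin (m + 1) → ℤ) : MvPolynomial (Fin (2 + 1)) ℤ :=
  ∑ i : Fin (m + 1), C (c i) * (X 1 ^ (m - (i : ℕ)) * X 2 ^ (i : ℕ))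

theorem bform_hom (m : ℕ) (c : Fin (m + 1) → ℤ) : (bform m c).IsHomogeneous m := by
  apply IsHomogeneous.sum
  intro i _
  have h1 : ((X 1 : MvPolynomial (Fin (2 + 1)) ℤ) ^ (m - (i : ℕ)) * X 2 ^ (i : ℕ)).IsHomogeneous
      ((m - i) + i) := (isHomogeneous_X_pow _ _).mul (isHomogeneous_X_pow _ _)
  have h2 : m - (i : ℕ) + i = m := Nat.sub_add_cancel (Nat.le_of_lt_succ i.2)
  rw [h2] at h1
  have h3 := (isHomogeneous_C (Fin (2 + 1)) (c i)).mul h1
  rwa [zero_add] at h3

variable {R : Type} [CommRing R] (m : ℕ) (c : Fin (m + 1) → ℤ) (x y : R)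

theorem bform_eval : eval₂ (Int.castRingHom R) (lpt x y) (bform m c) =
    ∑ i : Fin (m + 1), (c i : R) * (x ^ (m - (i : ℕ)) * y ^ (i : ℕ)) := by
  simp only [bform, eval₂_sum, eval₂_mul, eval₂_C, eval₂_pow, eval₂_X]
  rfl

theorem bform_d1 : eval₂ (Int.castRingHom R) (lpt x y) (pderiv 1 (bform m c)) =
    ∑ i : Fin (m + 1), (c i : R) * ((((m - (i : ℕ) : ℕ) : R) * x ^ (m - (i : ℕ) - 1)) *
      y ^ (i : ℕ)) := by
  have h1 : pderiv 1 (bform m c) = ∑ i : Fin (m + 1), C (c i) *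
      (((m - (i : ℕ) : ℕ) : MvPolynomial (Fin (2 + 1)) ℤ) * X 1 ^ (m - (i : ℕ) - 1) *
        X 2 ^ (i : ℕ)) := by
    rw [bform, map_sum]
    apply Finset.sum_congr rfl
    intro i _
    rw [pderiv_C_mul, pderiv_mul, pderiv_pow, pderiv_pow, pderiv_X_self,
      pderiv_X_of_ne (by decide)]
    ring
  rw [h1]
  simp only [eval₂_sum, eval₂_mul, eval₂_C, eval₂_pow, eval₂_X, eval₂_natCast]
  rfl

theorem bform_d2 : eval₂ (Int.castRingHom R) (lpt x y) (pderiv 2 (bform m c)) =
    ∑ i : Fin (m + 1), (c i : R) * (x ^ (m - (i : ℕ)) * (((i : ℕ) : R) * y ^ ((i : ℕ) - 1))) := by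
  have h1 : pderiv 2 (bform m c) = ∑ i : Fin (m + 1), C (c i) *
      (X 1 ^ (m - (i : ℕ)) * (((i : ℕ) : MvPolynomial (Fin (2 + 1)) ℤ) * X 2 ^ ((i : ℕ) - 1))) := by
    rw [bform, map_sum]
    apply Finset.sum_congr rfl
    intro i _
    rw [pderiv_C_mul, pderiv_mul, pderiv_pow, pderiv_pow, pderiv_X_self,
      pderiv_X_of_ne (by decide)]
    ring
  rw [h1]
  simp only [eval₂_sum, eval₂_mul, eval₂_C, eval₂_pow, eval₂_X, eval₂_natCast]
  rfl

end bform

section values

open Polynomial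

variable {p : ℕ} [hp : Fact p.Prime] (m : ℕ) (c : Fin (m + 1) → ℤ)

/-- Reduction of the coefficients. -/
def red (p : ℕ) {ι : Type} (c : ι → ℤ) : ι → ZMod p := fun i => (c i : ZMod p)

theorem ofFn_eval (v : Fin (m + 1) → ZMod p) (t : ZMod p) :
    (ofFn (m + 1) v).eval t = ∑ i : Fin (m + 1), v i * t ^ (i : ℕ) := by
  rw [ofFn_eq_sum_monomial, eval_finsetSum]
  simp only [eval_monomial]

theorem ofFn_eval' (v : Fin (m + 1) → ZMod p) (t : ZMod p) :
    (derivative (ofFn (m + 1) v)).eval t =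
      ∑ i : Fin (m + 1), v i * (((i : ℕ) : ZMod p) * t ^ ((i : ℕ) - 1)) := by
  rw [ofFn_eq_sum_monomial, derivative_sum, eval_finsetSum]
  apply Finset.sum_congr rfl
  intro i _
  rw [derivative_monomial, eval_monomial, mul_assoc]

theorem val_some (t : ZMod p) :
    MvPolynomial.eval₂ (Int.castRingHom (ZMod p)) (lpt 1 t) (bform m c) =
      (ofFn (m + 1) (red p c)).eval t := by
  rw [bform_eval, ofFn_eval]
  apply Finset.sum_congr rfl
  intro i _
  rw [one_pow, one_mul]
  rfl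

theorem d2_some (t : ZMod p) :
    MvPolynomial.eval₂ (Int.castRingHom (ZMod p)) (lpt 1 t) (MvPolynomial.pderiv 2 (bform m c)) =
      (derivative (ofFn (m + 1) (red p c))).eval t := by
  rw [bform_d2, ofFn_eval']
  apply Finset.sum_congr rfl
  intro i _
  rw [one_pow, one_mul]
  rfl

theorem d1_some (t : ZMod p) :
    MvPolynomial.eval₂ (Int.castRingHom (ZMod p)) (lpt 1 t) (MvPolynomial.pderiv 1 (bform m c)) =
      m * (ofFn (m + 1) (red p c)).eval t - t * (derivative (ofFn (m + 1) (red p c))).eval t := by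
  rw [bform_d1, ofFn_eval', ofFn_eval, Finset.mul_sum, Finset.mul_sum, ← Finset.sum_sub_distrib]
  apply Finset.sum_congr rfl
  intro i _
  have hi : (i : ℕ) ≤ m := Nat.le_of_lt_succ i.2
  have hr : red p c i = (c i : ZMod p) := rfl
  rw [one_pow, mul_one, Nat.cast_sub hi, hr]
  rcases Nat.eq_zero_or_pos (i : ℕ) with h | h
  · rw [h]
    push_cast
    ring
  · obtain ⟨k, hk⟩ := Nat.exists_eq_succ_of_ne_zero h.ne'
    rw [hk]
    simp only [Nat.succ_sub_one, Nat.succ_eq_add_one]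
    ring

theorem val_none :
    MvPolynomial.eval₂ (Int.castRingHom (ZMod p)) (lpt 0 1) (bform m c) =
      (ofFn (m + 1) (red p c)).coeff m := by
  rw [bform_eval, Finset.sum_eq_single (Fin.last m)]
  · rw [ofFn_coeff_eq_val_of_lt _ (Nat.lt_succ_self m)]
    simp [red, Fin.last]
  · intro i _ hi
    have h1 : m - (i : ℕ) ≠ 0 := by
      intro h
      apply hi
      apply Fin.ext
      rw [Fin.val_last]
      have := i.2
      omega
    rw [zero_pow h1, zero_mul, mul_zero]
  · intro h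
    exact absurd (Finset.mem_univ _) h

theorem d2_none :
    MvPolynomial.eval₂ (Int.castRingHom (ZMod p)) (lpt 0 1) (MvPolynomial.pderiv 2 (bform m c)) =
      m * (ofFn (m + 1) (red p c)).coeff m := by
  rw [bform_d2, Finset.sum_eq_single (Fin.last m)]
  · rw [ofFn_coeff_eq_val_of_lt _ (Nat.lt_succ_self m)]
    simp [red, Fin.last, mul_comm]
  · intro i _ hi
    have h1 : m - (i : ℕ) ≠ 0 := by
      intro h
      apply hi
      apply Fin.ext
      rw [Fin.val_last]
      have := i.2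
      omega
    rw [zero_pow h1, zero_mul, mul_zero]
  · intro h
    exact absurd (Finset.mem_univ _) h

theorem d1_none (hm : 1 ≤ m) :
    MvPolynomial.eval₂ (Int.castRingHom (ZMod p)) (lpt 0 1) (MvPolynomial.pderiv 1 (bform m c)) =
      (ofFn (m + 1) (red p c)).coeff (m - 1) := by
  rw [bform_d1, Finset.sum_eq_single (⟨m - 1, by omega⟩ : Fin (m + 1))]
  · rw [ofFn_coeff_eq_val_of_lt _ (show m - 1 < m + 1 by omega)]
    have h1 : m - (m - 1) = 1 := by omega
    simp [red, h1]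
  · intro i _ hi
    rcases Nat.lt_or_ge (i : ℕ) (m - 1) with h | h
    · have h1 : m - (i : ℕ) - 1 ≠ 0 := by omega
      rw [zero_pow h1, mul_zero, zero_mul, mul_zero]
    · have h2 : (i : ℕ) = m := by
        have h3 := i.2
        have h4 : (i : ℕ) ≠ m - 1 := fun h5 => hi (Fin.ext h5)
        omega
      have h3 : m - (i : ℕ) = 0 := by omega
      rw [h3, Nat.cast_zero, zero_mul, zero_mul, mul_zero]
  · intro h
    exact absurd (Finset.mem_univ _) h

end values

section maps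

open MvPolynomial

/-- The system with the invariant line `x_0 = 0` and the given restriction to the line. -/
noncomputable def lsys (m : ℕ) (a : Fin (m + 1) → ℤ) (u v : Fin (m + 1 + 1) → ℤ)
    (B : Fin (2 + 1) → MvPolynomial (Fin (2 + 1)) ℤ) :
    Fin (2 + 1) → MvPolynomial (Fin (2 + 1)) ℤ :=
  ![X 0 * (bform m a + X 0 * B 0), bform (m + 1) u + X 0 * B 1, bform (m + 1) v + X 0 * B 2]

variable {m : ℕ} {a : Fin (m + 1) → ℤ} {u v : Fin (m + 1 + 1) → ℤ}
  {B : Fin (2 + 1) → MvPolynomial (Fin (2 + 1)) ℤ}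

theorem lsys_hom (hm : 1 ≤ m) (hB0 : (B 0).IsHomogeneous (m - 1)) (hB1 : (B 1).IsHomogeneous m)
    (hB2 : (B 2).IsHomogeneous m) (i : Fin (2 + 1)) :
    (lsys m a u v B i).IsHomogeneous (m + 1) := by
  have hX : (X 0 : MvPolynomial (Fin (2 + 1)) ℤ).IsHomogeneous 1 := isHomogeneous_X _ _
  fin_cases i
  · change (X 0 * (bform m a + X 0 * B 0)).IsHomogeneous (m + 1)
    have h1 : (X 0 * B 0).IsHomogeneous m := by
      have := hX.mul hB0
      rwa [show 1 + (m - 1) = m by omega] at this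
    have h2 := hX.mul ((bform_hom m a).add h1)
    rwa [show 1 + m = m + 1 by omega] at h2
  · change (bform (m + 1) u + X 0 * B 1).IsHomogeneous (m + 1)
    have h1 := hX.mul hB1
    rw [show 1 + m = m + 1 by omega] at h1
    exact (bform_hom _ _).add h1
  · change (bform (m + 1) v + X 0 * B 2).IsHomogeneous (m + 1)
    have h1 := hX.mul hB2
    rw [show 1 + m = m + 1 by omega] at h1
    exact (bform_hom _ _).add h1

theorem lsys_line (z : Fin (2 + 1) → ℂ) (hz : z 0 = 0) :
    ((cmap (N := 2) (lsys m a u v B))^[1] z) 0 = 0 := by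
  rw [Function.iterate_one]
  change eval z (map (Int.castRingHom ℂ) (X 0 * (bform m a + X 0 * B 0))) = 0
  rw [map_mul, map_mul, map_X, eval_X, hz, zero_mul]

/-- The Jacobian determinant on the line. -/
theorem lsys_jd {R : Type} [CommRing R] (x y : R) :
    jd (N := 2) R (lsys m a u v B) 0 (lpt x y) =
      eval₂ (Int.castRingHom R) (lpt x y) (bform m a) *
      (eval₂ (Int.castRingHom R) (lpt x y) (pderiv 1 (bform (m + 1) u)) *
          eval₂ (Int.castRingHom R) (lpt x y) (pderiv 2 (bform (m + 1) v)) -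
        eval₂ (Int.castRingHom R) (lpt x y) (pderiv 2 (bform (m + 1) u)) *
          eval₂ (Int.castRingHom R) (lpt x y) (pderiv 1 (bform (m + 1) v))) := by
  have hx0 : lpt x y 0 = 0 := rfl
  have hjac : ∀ i j, jac (overR R (lsys m a u v B)) (lpt x y) i j =
      eval₂ (Int.castRingHom R) (lpt x y) (pderiv j (lsys m a u v B i)) := by
    intro i j
    simp only [jac, overR]
    rw [pderiv_map, eval_map]
  have h00 : eval₂ (Int.castRingHom R) (lpt x y) (pderiv 0 (lsys m a u v B 0)) =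
      eval₂ (Int.castRingHom R) (lpt x y) (bform m a) := by
    change eval₂ (Int.castRingHom R) (lpt x y)
      (pderiv 0 (X 0 * (bform m a + X 0 * B 0))) = _
    rw [pderiv_mul, pderiv_X_self]
    simp only [eval₂_add, eval₂_mul, eval₂_X, eval₂_one, hx0]
    ring
  have h0j : ∀ j : Fin (2 + 1), j ≠ 0 →
      eval₂ (Int.castRingHom R) (lpt x y) (pderiv j (lsys m a u v B 0)) = 0 := by
    intro j hj
    change eval₂ (Int.castRingHom R) (lpt x y)
      (pderiv j (X 0 * (bform m a + X 0 * B 0))) = _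
    rw [pderiv_mul, pderiv_X_of_ne (Ne.symm hj)]
    simp only [eval₂_add, eval₂_mul, eval₂_X, eval₂_zero, hx0]
    ring
  have h1j : ∀ j : Fin (2 + 1), j ≠ 0 →
      eval₂ (Int.castRingHom R) (lpt x y) (pderiv j (lsys m a u v B 1)) =
        eval₂ (Int.castRingHom R) (lpt x y) (pderiv j (bform (m + 1) u)) := by
    intro j hj
    change eval₂ (Int.castRingHom R) (lpt x y)
      (pderiv j (bform (m + 1) u + X 0 * B 1)) = _
    rw [map_add, pderiv_mul, pderiv_X_of_ne (Ne.symm hj)]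
    simp only [eval₂_add, eval₂_mul, eval₂_X, eval₂_zero, hx0]
    ring
  have h2j : ∀ j : Fin (2 + 1), j ≠ 0 →
      eval₂ (Int.castRingHom R) (lpt x y) (pderiv j (lsys m a u v B 2)) =
        eval₂ (Int.castRingHom R) (lpt x y) (pderiv j (bform (m + 1) v)) := by
    intro j hj
    change eval₂ (Int.castRingHom R) (lpt x y)
      (pderiv j (bform (m + 1) v + X 0 * B 2)) = _
    rw [map_add, pderiv_mul, pderiv_X_of_ne (Ne.symm hj)]
    simp only [eval₂_add, eval₂_mul, eval₂_X, eval₂_zero, hx0]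
    ring
  unfold jd
  rw [Function.iterate_zero, id_eq, Matrix.det_fin_three, hjac, hjac, hjac, hjac, hjac, hjac, hjac,
    hjac, hjac, h00, h0j 1 (by decide), h0j 2 (by decide), h1j 1 (by decide), h1j 2 (by decide),
    h2j 1 (by decide), h2j 2 (by decide)]
  ring

theorem lsys_good (hm : 2 ≤ m) (p : ℕ) [hp : Fact p.Prime] (hpm : m + 1 < p)
    (ha : red p a ∈ zf p m) (hw : red p v ∈ zw p (m + 1) (red p u))
    (hB0 : (B 0).IsHomogeneous (m - 1)) (hB1 : (B 1).IsHomogeneous m)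
    (hB2 : (B 2).IsHomogeneous m) : p ∈ LP (lsys m a u v B) 0 1 := by
  have ha' : ∀ z, fv m z (red p a) ≠ 0 := (Finset.mem_filter.1 ha).2
  have hw' : ∀ z, fw (Polynomial.ofFn (m + 1 + 1) (red p u)) (m + 1) z (red p v) ≠ 0 :=
    (Finset.mem_filter.1 hw).2
  have hd0 : ((m + 1 : ℕ) : ZMod p) ≠ 0 := by
    rw [Ne, ZMod.natCast_eq_zero_iff]
    intro h
    have := Nat.le_of_dvd (by omega) h
    omega
  rw [mem_LP (lsys_hom (by omega) hB0 hB1 hB2) 0 1 p hp.out]
  constructor
  · have h1 := QR_zero (lsys m a u v B) 0 1 (R := ZMod p)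
    rw [Finset.prod_Ico_eq_prod_range, Nat.zero_add, Nat.sub_zero, Finset.prod_range_one,
      Nat.zero_add, lsys_jd, val_none, d1_none _ _ (by omega), d2_none, d1_none _ _ (by omega),
      d2_none] at h1
    rw [← ZMod.intCast_zmod_eq_zero_iff_dvd, h1]
    have h2 := ha' none
    have h3 := hw' none
    rw [fv_none] at h2
    rw [fw_none] at h3
    apply mul_ne_zero h2
    intro h4
    apply mul_ne_zero hd0 h3
    rw [← h4]
    ring
  · intro t
    rw [QQ_eval, Finset.prod_Ico_eq_prod_range, Nat.zero_add, Nat.sub_zero, Finset.prod_range_one,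
      Nat.zero_add, lsys_jd, val_some, d1_some, d2_some, d1_some, d2_some]
    have h2 := ha' (some t)
    have h3 := hw' (some t)
    rw [fv_some] at h2
    rw [fw_some, Polynomial.eval_sub, Polynomial.eval_mul, Polynomial.eval_mul] at h3
    apply mul_ne_zero h2
    intro h4
    apply mul_ne_zero hd0 h3
    rw [← h4]
    ring

/-- The index set of the coefficients on the line. -/
abbrev Ix (m : ℕ) : Type := Fin (m + 1) ⊕ (Fin (m + 1 + 1) ⊕ Fin (m + 1 + 1))

/-- The good coefficient vectors modulo `p`. -/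
def GG (m p : ℕ) : Set (Ix m → ZMod p) :=
  {w | ∃ _ : Fact p.Prime, m + 1 < p ∧ (fun i => w (Sum.inl i)) ∈ zf p m ∧
    (fun i => w (Sum.inr (Sum.inl i))) ∈ zf p (m + 1) ∧
    (fun i => w (Sum.inr (Sum.inr i))) ∈ zw p (m + 1) (fun i => w (Sum.inr (Sum.inl i)))}

theorem card_GG (hm : 2 ≤ m) (p : ℕ) [hp : Fact p.Prime] (hpm : 4 * m + 12 ≤ p) :
    1 / (8 * ((m : ℝ) + 1) * (m + 2) * (2 * m + 3)) ≤
      (Nat.card (GG m p) : ℝ) / (p : ℝ) ^ Fintype.card (Ix m) := by
  classical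
  have hp0 : (0 : ℝ) < p := by exact_mod_cast hp.out.pos
  set S : Finset ((Fin (m + 1) → ZMod p) × ((_ : Fin (m + 1 + 1) → ZMod p) ×
      (Fin (m + 1 + 1) → ZMod p))) := zf p m ×ˢ (zf p (m + 1)).sigma (fun u => zw p (m + 1) u)
    with hS
  have h1 : (p : ℝ) ^ (m + 1) / (2 * (m + 1)) * ((p : ℝ) ^ (m + 1 + 1) / (2 * ((m + 1 : ℕ) + 1)) *
      ((p : ℝ) ^ (m + 1 + 1) / (2 * (2 * ((m + 1 : ℕ) : ℝ) + 1)))) ≤ (S.card : ℝ) := by
    rw [hS, Finset.card_product, Finset.card_sigma]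
    push_cast
    have e1 := card_zf (p := p) hm (by omega)
    have e2 := card_zf (p := p) (m := m + 1) (by omega) (by omega)
    have e3 : ∀ u ∈ zf p (m + 1), (p : ℝ) ^ (m + 1 + 1) / (2 * (2 * ((m + 1 : ℕ) : ℝ) + 1)) ≤
        ((zw p (m + 1) u).card : ℝ) := fun u hu => card_zw (by omega) (by omega) u hu
    have e4 : ((zf p (m + 1)).card : ℝ) *
        ((p : ℝ) ^ (m + 1 + 1) / (2 * (2 * ((m + 1 : ℕ) : ℝ) + 1))) ≤
        ∑ u ∈ zf p (m + 1), ((zw p (m + 1) u).card : ℝ) := by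
      rw [← nsmul_eq_mul]
      exact Finset.card_nsmul_le_sum _ _ _ e3
    refine mul_le_mul e1 (le_trans ?_ e4) (by positivity) (by positivity)
    push_cast at e2 ⊢
    exact mul_le_mul_of_nonneg_right e2 (by positivity)
  have h2 : S.card ≤ Nat.card (GG m p) := by
    rw [Nat.card_coe_set_eq, ← Set.ncard_coe_finset]
    apply Set.ncard_le_ncard_of_injOn (fun q => Sum.elim q.1 (Sum.elim q.2.1 q.2.2))
    · rintro ⟨a, ⟨u, v⟩⟩ hq
      rw [Finset.mem_coe, hS, Finset.mem_product, Finset.mem_sigma] at hq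
      exact ⟨hp, by omega, hq.1, hq.2.1, hq.2.2⟩
    · rintro ⟨a, ⟨u, v⟩⟩ _ ⟨a', ⟨u', v'⟩⟩ _ h
      have e1 : a = a' := funext fun i => congrFun h (Sum.inl i)
      have e2 : u = u' := funext fun i => congrFun h (Sum.inr (Sum.inl i))
      have e3 : v = v' := funext fun i => congrFun h (Sum.inr (Sum.inr i))
      subst e1 e2 e3
      rfl
  have h3 : Fintype.card (Ix m) = (m + 1) + ((m + 1 + 1) + (m + 1 + 1)) := by
    simp [Ix]
  rw [h3, pow_add, pow_add, le_div_iff₀ (by positivity)]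
  have h2' : (S.card : ℝ) ≤ Nat.card (GG m p) := by exact_mod_cast h2
  refine le_trans (le_of_eq ?_) (h1.trans h2')
  push_cast
  field_simp
  ring

end maps

end Pool.Agent.T6.H91.HP
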