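import Pool.Agent.H927R2.RD.Box
import Pool.Agent.H927R2.RD.Core
import Pool.Agent.H927R2.RD.Coeff
import Pool.Agent.H927R2.RD.T3b

set_option autoImplicit false

/-! Orbits modulo a prime and the dynamical Mordell-Lang property of integral points. -/

namespace Pool.Agent.T6.H91.HP

open MvPolynomial Pool.Agent.H936R2 Pool.Agent.H927R2.RD

variable {N d : ℕ}

/-- The Jacobian determinant of an integral system at the `n`-th iterate of a point over `R`. -/
noncomputable def jd (R : Type) [CommRing R] (F : Fin (N + 1) → MvPolynomial (Fin (N + 1)) ℤ)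
    (n : ℕ) (z : Fin (N + 1) → R) : R :=
  (jac (overR R F) ((pt (overR R F))^[n] z)).det

theorem it_map {R R' : Type} [CommRing R] [CommRing R'] (φ : R →+* R')
    (F : Fin (N + 1) → MvPolynomial (Fin (N + 1)) ℤ) (n : ℕ) (z : Fin (N + 1) → R) :
    (pt (overR R' F))^[n] (fun i => φ (z i)) = fun i => φ ((pt (overR R F))^[n] z i) := by
  have h := pt_map φ (overR R F) z n
  rw [overR_map] at h
  exact h

theorem jd_map {R R' : Type} [CommRing R] [CommRing R'] (φ : R →+* R')
    (F : Fin (N + 1) → MvPolynomial (Fin (N + 1)) ℤ) (n : ℕ) (z : Fin (N + 1) → R) :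
    jd R' F n (fun i => φ (z i)) = φ (jd R F n z) := by
  unfold jd
  rw [it_map, RingHom.map_det]
  have h := jac_map φ (overR R F) ((pt (overR R F))^[n] z)
  rw [overR_map] at h
  rw [h]

theorem jd_add {R : Type} [CommRing R] (F : Fin (N + 1) → MvPolynomial (Fin (N + 1)) ℤ)
    (n m : ℕ) (z : Fin (N + 1) → R) :
    jd R F (n + m) z = jd R F n ((pt (overR R F))^[m] z) := by
  unfold jd
  rw [Function.iterate_add_apply]

theorem overR_hom {R : Type} [CommRing R] {F : Fin (N + 1) → MvPolynomial (Fin (N + 1)) ℤ}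
    (hF : ∀ i, (F i).IsHomogeneous d) (i : Fin (N + 1)) : (overR R F i).IsHomogeneous d :=
  (hF i).map _

/-- Scaling. -/
theorem jd_smul {R : Type} [CommRing R] {F : Fin (N + 1) → MvPolynomial (Fin (N + 1)) ℤ}
    (hF : ∀ i, (F i).IsHomogeneous d) (n : ℕ) (t : R) (z : Fin (N + 1) → R) :
    jd R F n (t • z) = t ^ (d ^ n * (d - 1) * (N + 1)) * jd R F n z := by
  have h1 : ∀ n : ℕ, (pt (overR R F))^[n] (t • z) = t ^ d ^ n • (pt (overR R F))^[n] z := by
    intro n
    induction n with
    | zero => simp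
    | succ n ih =>
      rw [Function.iterate_succ_apply', ih, Function.iterate_succ_apply']
      funext i
      simp only [pt, Pi.smul_apply, smul_eq_mul]
      rw [T3b_eval_smul (overR_hom hF i), ← pow_mul, ← pow_succ]
  unfold jd
  rw [h1]
  have h2 : jac (overR R F) (t ^ d ^ n • (pt (overR R F))^[n] z) =
      (t ^ (d ^ n * (d - 1))) • jac (overR R F) ((pt (overR R F))^[n] z) := by
    ext i j
    simp only [jac, Matrix.smul_apply, smul_eq_mul]
    rw [T3b_eval_smul (overR_hom hF i).pderiv, ← pow_mul]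
  rw [h2, Matrix.det_smul, Fintype.card_fin, ← pow_mul]

/-- A nonzero point with nonzero Jacobian determinant has a nonzero image. -/
theorem pt_ne_zero {R : Type} [Field R] {F : Fin (N + 1) → MvPolynomial (Fin (N + 1)) ℤ}
    (hF : ∀ i, (F i).IsHomogeneous d) (z : Fin (N + 1) → R) (hz : z ≠ 0)
    (h : (jac (overR R F) z).det ≠ 0) : pt (overR R F) z ≠ 0 := by
  intro h0
  apply hz
  have h1 : (jac (overR R F) z).mulVec z = 0 := by
    funext i
    have h2 := T3b_euler (overR_hom (R := R) hF i) z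
    have h3 : eval z (overR R F i) = 0 := congrFun h0 i
    rw [h3, mul_zero] at h2
    exact h2
  exact Matrix.eq_zero_of_mulVec_eq_zero h h1

/-- A point with nonzero Jacobian determinant is not zero if `d ≥ 2`. -/
theorem ne_zero_of_jac {R : Type} [Field R] {F : Fin (N + 1) → MvPolynomial (Fin (N + 1)) ℤ}
    (hd : 2 ≤ d) (hF : ∀ i, (F i).IsHomogeneous d) (z : Fin (N + 1) → R)
    (h : (jac (overR R F) z).det ≠ 0) : z ≠ 0 := by
  rintro rfl
  apply h
  have h1 := jd_smul (R := R) hF 0 0 (0 : Fin (N + 1) → R)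
  unfold jd at h1
  rw [smul_zero, Function.iterate_zero, id_eq, zero_pow, zero_mul] at h1
  · exact h1
  · rw [pow_zero, one_mul]
    exact Nat.mul_ne_zero (by omega) (by omega)

/-- The criterion for an integral point: the Jacobian determinant is finally not divisible by `p`
along the orbit. -/
theorem dml_of_int {F : Fin (N + 1) → MvPolynomial (Fin (N + 1)) ℤ}
    (hF : ∀ i, (F i).IsHomogeneous d) (α : Fin (N + 1) → ℤ) (p : ℕ) [hp : Fact p.Prime] (M : ℕ)
    (h : ∀ n, M ≤ n → jd (ZMod p) F n (fun i => (α i : ZMod p)) ≠ 0) :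
    DMLAt F (fun i => (α i : ℂ)) := by
  obtain ⟨τ⟩ := exists_embedding p
  refine dml_core (p := p) F hF (fun i => (α i : ℂ)) τ 1 one_ne_zero
    (fun i => (α i : unitBall (PadicAlgCl p))) (fun i => ?_) M (fun n hn => ?_)
  · push_cast
    rw [one_mul, map_intCast]
  · -- the determinant is an integer which is prime to `p`
    have h1 : jd ℤ F n α ≠ 0 ∧ ¬ (p : ℤ) ∣ jd ℤ F n α := by
      have h2 := h n hn
      have h3 := jd_map (Int.castRingHom (ZMod p)) F n α
      have h4 : (fun i => (Int.castRingHom (ZMod p)) (α i)) = fun i => ((α i : ℤ) : ZMod p) := rfl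
      rw [h4] at h3
      rw [h3] at h2
      have h5 : ¬ (p : ℤ) ∣ jd ℤ F n α := by
        intro h6
        apply h2
        exact (ZMod.intCast_zmod_eq_zero_iff_dvd _ p).2 h6
      exact ⟨fun h6 => h5 (h6 ▸ dvd_zero _), h5⟩
    have h6 := jd_map (Int.castRingHom (unitBall (PadicAlgCl p))) F n α
    have h7 : (fun i => (Int.castRingHom (unitBall (PadicAlgCl p))) (α i)) =
        fun i => ((α i : ℤ) : unitBall (PadicAlgCl p)) := rfl
    rw [h7] at h6
    unfold jd at h6
    rw [h6]
    change IsUnit (jd ℤ F n α : unitBall (PadicAlgCl p))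
    rw [unitBall_isUnit_iff]
    have h8 : (((jd ℤ F n α : ℤ) : unitBall (PadicAlgCl p)) : PadicAlgCl p) =
        algebraMap ℚ_[p] (PadicAlgCl p) ((jd ℤ F n α : ℤ) : ℚ_[p]) := by
      push_cast
      rfl
    have h9 : ∀ x : ℚ_[p], ‖algebraMap ℚ_[p] (PadicAlgCl p) x‖ = ‖x‖ := fun x => by
      simp
    rw [h8, h9]
    have h10 := Padic.norm_int_le_one (p := p) (jd ℤ F n α)
    have h11 : ¬ ‖((jd ℤ F n α : ℤ) : ℚ_[p])‖ < 1 := by
      rw [Padic.norm_intCast_lt_one_iff]
      exact h1.2
    exact le_antisymm h10 (not_lt.1 h11)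

end Pool.Agent.T6.H91.HP
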