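import Pool.Agent.T6.H91.HP.Two
import Pool.Agent.H927R2.RD.Final2

set_option autoImplicit false

/-! One complex point, almost all maps. -/

namespace Pool.Agent.T6.H91.HP

open Pool.Agent.H936R2 Pool.Agent.H927R2.RD Filter Topology

/-- A family of good sets of coefficient vectors. -/
theorem exists_good (m : ℕ) (hm : 1 ≤ m) : ∃ (δ : ℝ) (M P₀ : ℕ) (G : ∀ p : ℕ, Set (Ix m → ZMod p)),
    0 < δ ∧ (∀ p : ℕ, p.Prime → P₀ ≤ p →
      δ ≤ (Nat.card (G p) : ℝ) / (p : ℝ) ^ Fintype.card (Ix m)) ∧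
    ∀ p : ℕ, p.Prime → ∀ w : Ix m → ℤ, (fun i => (w i : ZMod p)) ∈ G p →
      ∀ B : Fin (2 + 1) → MvPolynomial (Fin (2 + 1)) ℤ, (B 0).IsHomogeneous (m - 1) →
        (B 1).IsHomogeneous m → (B 2).IsHomogeneous m →
        p ∈ LP (lsys m (fun i => w (Sum.inl i)) (fun i => w (Sum.inr (Sum.inl i)))
          (fun i => w (Sum.inr (Sum.inr i))) B) M 1 := by
  rcases Nat.lt_or_ge m 2 with h | h
  · have hm1 : m = 1 := by omega
    subst hm1
    refine ⟨1 / 48, 1, 12, fun p => GG2 p, by norm_num, fun p hp hpm => ?_, ?_⟩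
    · have : Fact p.Prime := ⟨hp⟩
      exact card_GG2 hpm
    · rintro p hp w ⟨_, hp2, -, hc, hv⟩ B - - -
      have h1 : red p (fun i => w (Sum.inl 0) * w (Sum.inr (Sum.inl i)) +
          w (Sum.inl 1) * w (Sum.inr (Sum.inr i))) =
          fun i => ((w (Sum.inl 0) : ℤ) : ZMod p) * ((w (Sum.inr (Sum.inl i)) : ℤ) : ZMod p) +
            ((w (Sum.inl 1) : ℤ) : ZMod p) * ((w (Sum.inr (Sum.inr i)) : ℤ) : ZMod p) := by
        funext i
        simp only [red]
        push_cast
        rfl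
      refine lsys_good_two hp2 ?_ ?_
      · rw [h1]
        exact hc
      · rw [h1]
        exact hv
  · refine ⟨1 / (8 * ((m : ℝ) + 1) * (m + 2) * (2 * m + 3)), 0, 4 * m + 12, fun p => GG m p,
      by positivity, fun p hp hpm => ?_, ?_⟩
    · have : Fact p.Prime := ⟨hp⟩
      exact card_GG h p hpm
    · rintro p hp w ⟨_, hpm, ha, -, hv⟩ B hB0 hB1 hB2
      exact lsys_good h p hpm ha hv hB0 hB1 hB2

section affine

open Finset

variable {p : ℕ} [hp : Fact p.Prime] {V : Type} [AddCommGroup V] [Module (ZMod p) V] [Fintype V]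

theorem card_fiber [DecidableEq V] (f : V →ₗ[ZMod p] ZMod p) (h : ∃ v, f v ≠ 0) (c : ZMod p) :
    ((univ.filter fun v => f v = c).card : ℝ) = Fintype.card V / p := by
  rw [← card_ker_one f h]
  obtain ⟨v, hv⟩ := h
  have h1 : f ((c / f v) • v) = c := by
    rw [map_smul, smul_eq_mul, div_mul_cancel₀ _ hv]
  congr 1
  refine card_bij' (fun x _ => x - (c / f v) • v) (fun x _ => x + (c / f v) • v) ?_ ?_ ?_ ?_
  · intro x hx
    rw [mem_filter] at hx ⊢
    exact ⟨mem_univ _, by rw [map_sub, hx.2, h1, sub_self]⟩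
  · intro x hx
    rw [mem_filter] at hx ⊢
    exact ⟨mem_univ _, by rw [map_add, hx.2, h1, zero_add]⟩
  · intro x _
    simp
  · intro x _
    simp

theorem card_fiber_ne [DecidableEq V] (f : V →ₗ[ZMod p] ZMod p) (h : ∃ v, f v ≠ 0) (c : ZMod p) :
    ((univ.filter fun v => f v ≠ c).card : ℝ) = Fintype.card V - Fintype.card V / p := by
  have h1 := card_fiber f h c
  have h2 := card_filter_add_card_filter_not (s := (univ : Finset V)) (fun v => f v = c)
  rw [card_univ] at h2
  have h3 : ((univ.filter fun v => f v = c).card : ℝ) +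
      ((univ.filter fun v => ¬ f v = c).card : ℝ) = Fintype.card V := by exact_mod_cast h2
  rw [h1] at h3
  linarith

/-- The value of a form as a linear functional. -/
noncomputable def ef (n d : ℕ) (w : Fin n → ZMod p) : (Mono n d → ZMod p) →ₗ[ZMod p] ZMod p where
  toFun c := ∑ κ, c κ * ∏ j, w j ^ (κ.1 j : ℕ)
  map_add' x y := by
    rw [← sum_add_distrib]
    apply sum_congr rfl
    intro κ _
    rw [Pi.add_apply]
    ring
  map_smul' t x := by
    rw [RingHom.id_apply, smul_eq_mul, mul_sum]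
    apply sum_congr rfl
    intro κ _
    rw [Pi.smul_apply, smul_eq_mul]
    ring

theorem ef_apply (n d : ℕ) (w : Fin n → ZMod p) (c : Mono n d → ZMod p) :
    ef n d w c = ∑ κ, c κ * ∏ j, w j ^ (κ.1 j : ℕ) := rfl

theorem ef_surj {n : ℕ} (d : ℕ) (w : Fin (n + 1) → ZMod p) (hw : w 0 ≠ 0) :
    ∃ c, ef (n + 1) d w c ≠ 0 := by
  classical
  let κ₀ : Mono (n + 1) d := ⟨fun j => if j = 0 then Fin.last d else 0, by
    rw [sum_eq_single (0 : Fin (n + 1))]
    · simp
    · intro j _ hj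
      simp [hj]
    · intro h
      exact absurd (mem_univ _) h⟩
  refine ⟨Pi.single κ₀ 1, ?_⟩
  rw [ef_apply, sum_eq_single κ₀]
  · rw [Pi.single_eq_same, one_mul, prod_eq_single (0 : Fin (n + 1))]
    · exact pow_ne_zero _ hw
    · intro j _ hj
      simp [κ₀, hj]
    · intro h
      exact absurd (mem_univ _) h
  · intro κ _ hκ
    rw [Pi.single_eq_of_ne hκ, zero_mul]
  · intro h
    exact absurd (mem_univ _) h

theorem ef_form (n d : ℕ) (w : Fin n → ZMod p) (c : Mono n d → ℤ) :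
    MvPolynomial.eval₂ (Int.castRingHom (ZMod p)) w (form c) =
      ef n d w (fun κ => (c κ : ZMod p)) := by
  rw [← MvPolynomial.eval_map, map_form, eval_form]
  rfl

end affine

/-- The index set of all the coefficients. -/
abbrev Jx (m : ℕ) : Type := Ix m ⊕ (Mono 3 (m - 1) ⊕ (Mono 3 m ⊕ Mono 3 m))

/-- The system with the given coefficients. -/
noncomputable def psys (m : ℕ) (x : Jx m → ℤ) : Fin (2 + 1) → MvPolynomial (Fin (2 + 1)) ℤ :=
  lsys m (fun i => x (Sum.inl (Sum.inl i))) (fun i => x (Sum.inl (Sum.inr (Sum.inl i))))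
    (fun i => x (Sum.inl (Sum.inr (Sum.inr i))))
    ![form fun κ => x (Sum.inr (Sum.inl κ)), form fun κ => x (Sum.inr (Sum.inr (Sum.inl κ))),
      form fun κ => x (Sum.inr (Sum.inr (Sum.inr κ)))]

variable {m : ℕ}

theorem psys_hom (hm : 1 ≤ m) (x : Jx m → ℤ) (i : Fin (2 + 1)) :
    (psys m x i).IsHomogeneous (m + 1) :=
  lsys_hom hm (form_isHomogeneous _) (form_isHomogeneous _) (form_isHomogeneous _) i

/-- The value of a binary form, modulo `p`. -/
noncomputable def bval (p m : ℕ) (c : Fin (m + 1) → ZMod p) (w : Fin 3 → ZMod p) : ZMod p :=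
  ∑ i : Fin (m + 1), c i * (w 1 ^ (m - (i : ℕ)) * w 2 ^ (i : ℕ))

theorem bval_eq {p : ℕ} (c : Fin (m + 1) → ℤ) (w : Fin 3 → ZMod p) :
    MvPolynomial.eval₂ (Int.castRingHom (ZMod p)) w (bform m c) =
      bval p m (fun i => (c i : ZMod p)) w := by
  simp only [bform, bval, MvPolynomial.eval₂_sum, MvPolynomial.eval₂_mul, MvPolynomial.eval₂_C,
    MvPolynomial.eval₂_pow, MvPolynomial.eval₂_X]
  rfl

/-- The coefficient vectors of the maps which are good at the point. -/
def HH (m : ℕ) (G : ∀ p : ℕ, Set (Ix m → ZMod p)) (p : ℕ) (w : Fin 3 → ZMod p) :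
    Set (Jx m → ZMod p) :=
  {y | (fun i => y (Sum.inl i)) ∈ G p ∧ ∃ _ : Fact p.Prime, (w 0 = 0 ∨
    (w 0 * ef 3 (m - 1) w (fun κ => y (Sum.inr (Sum.inl κ))) =
        -bval p m (fun i => y (Sum.inl (Sum.inl i))) w ∧
      w 0 * ef 3 m w (fun κ => y (Sum.inr (Sum.inr (Sum.inl κ)))) ≠
        -bval p (m + 1) (fun i => y (Sum.inl (Sum.inr (Sum.inl i)))) w))}

theorem HH_good (hm : 1 ≤ m) {M : ℕ} {G : ∀ p : ℕ, Set (Ix m → ZMod p)}
    (hG : ∀ p : ℕ, p.Prime → ∀ w : Ix m → ℤ, (fun i => (w i : ZMod p)) ∈ G p →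
      ∀ B : Fin (2 + 1) → MvPolynomial (Fin (2 + 1)) ℤ, (B 0).IsHomogeneous (m - 1) →
        (B 1).IsHomogeneous m → (B 2).IsHomogeneous m →
        p ∈ LP (lsys m (fun i => w (Sum.inl i)) (fun i => w (Sum.inr (Sum.inl i)))
          (fun i => w (Sum.inr (Sum.inr i))) B) M 1)
    {p : ℕ} (hp : p.Prime) (w : Fin (2 + 1) → ZMod p) (hw : w ≠ 0) (x : Jx m → ℤ)
    (hx : (fun i => (x i : ZMod p)) ∈ HH m G p w) :
    ∃ M', ∀ n, M' ≤ n → jd (ZMod p) (psys m x) n w ≠ 0 := by
  have : Fact p.Prime := ⟨hp⟩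
  obtain ⟨hxG, _, hx0⟩ := hx
  have hLP := hG p hp (fun i => x (Sum.inl i)) hxG
    ![form fun κ => x (Sum.inr (Sum.inl κ)), form fun κ => x (Sum.inr (Sum.inr (Sum.inl κ))),
      form fun κ => x (Sum.inr (Sum.inr (Sum.inr κ)))] (form_isHomogeneous _)
      (form_isHomogeneous _) (form_isHomogeneous _)
  have hfor : ∀ z : Fin (2 + 1) → ZMod p, z ≠ 0 → z 0 = 0 → ∀ n, M ≤ n →
      jd (ZMod p) (psys m x) n z ≠ 0 := fun z hz hz0 n hn =>
    LP_forever (by omega) (psys_hom hm x) M 1 le_rfl lsys_line p hLP z hz hz0 n hn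
  rcases hx0 with h0 | ⟨h1, h2⟩
  · exact ⟨M, hfor w hw h0⟩
  · refine ⟨M + 1, fun n hn => ?_⟩
    obtain ⟨k, rfl⟩ : ∃ k, n = k + 1 := ⟨n - 1, by omega⟩
    rw [jd_add, Function.iterate_one]
    refine hfor _ ?_ ?_ k (by omega)
    · intro h3
      have h4 := congrFun h3 1
      have h5 : pt (overR (ZMod p) (psys m x)) w 1 =
          MvPolynomial.eval₂ (Int.castRingHom (ZMod p)) w
            (bform (m + 1) (fun i => x (Sum.inl (Sum.inr (Sum.inl i)))) +
              MvPolynomial.X 0 * form fun κ => x (Sum.inr (Sum.inr (Sum.inl κ)))) := by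
        simp only [pt, overR, MvPolynomial.eval_map]
        rfl
      rw [h5, MvPolynomial.eval₂_add, MvPolynomial.eval₂_mul, MvPolynomial.eval₂_X, bval_eq,
        ef_form] at h4
      apply h2
      have h6 : bval p (m + 1) (fun i => ((x (Sum.inl (Sum.inr (Sum.inl i))) : ℤ) : ZMod p)) w +
        w 0 * ef 3 m w (fun κ => ((x (Sum.inr (Sum.inr (Sum.inl κ))) : ℤ) : ZMod p)) = 0 := h4
      linear_combination h6
    · have h5 : pt (overR (ZMod p) (psys m x)) w 0 =
          MvPolynomial.eval₂ (Int.castRingHom (ZMod p)) w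
            (MvPolynomial.X 0 * (bform m (fun i => x (Sum.inl (Sum.inl i))) +
              MvPolynomial.X 0 * form fun κ => x (Sum.inr (Sum.inl κ)))) := by
        simp only [pt, overR, MvPolynomial.eval_map]
        rfl
      rw [h5, MvPolynomial.eval₂_mul, MvPolynomial.eval₂_add, MvPolynomial.eval₂_mul,
        MvPolynomial.eval₂_X, bval_eq, ef_form]
      have h6 : bval p m (fun i => ((x (Sum.inl (Sum.inl i)) : ℤ) : ZMod p)) w +
        w 0 * ef 3 (m - 1) w (fun κ => ((x (Sum.inr (Sum.inl κ)) : ℤ) : ZMod p)) = 0 := by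
        linear_combination h1
      rw [h6, mul_zero]

theorem card_HH {p : ℕ} [hp : Fact p.Prime] (G : ∀ p : ℕ, Set (Ix m → ZMod p)) (δ : ℝ)
    (hδ : 0 ≤ δ) (hG : δ ≤ (Nat.card (G p) : ℝ) / (p : ℝ) ^ Fintype.card (Ix m))
    (w : Fin 3 → ZMod p) :
    (δ / 2) * (1 / p) ≤ (Nat.card (HH m G p w) : ℝ) / (p : ℝ) ^ Fintype.card (Jx m) := by
  classical
  have hp0 : (0 : ℝ) < p := by exact_mod_cast hp.out.pos
  have hp2 : (2 : ℝ) ≤ p := by exact_mod_cast hp.out.two_le
  have hfinG : (G p).Finite := Set.toFinite _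
  set k0 := Fintype.card (Mono 3 (m - 1)) with hk0
  set k1 := Fintype.card (Mono 3 m) with hk1
  set T : Finset (Σ _ : Ix m → ZMod p, (Mono 3 (m - 1) → ZMod p) ×
      ((Mono 3 m → ZMod p) × (Mono 3 m → ZMod p))) :=
    hfinG.toFinset.sigma fun g =>
      (if w 0 = 0 then Finset.univ else Finset.univ.filter fun b => w 0 * ef 3 (m - 1) w b =
        -bval p m (fun i => g (Sum.inl i)) w) ×ˢ
      ((if w 0 = 0 then Finset.univ else Finset.univ.filter fun b => w 0 * ef 3 m w b ≠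
        -bval p (m + 1) (fun i => g (Sum.inr (Sum.inl i))) w) ×ˢ Finset.univ) with hT
  have hcard : (Nat.card (G p) : ℝ) * ((p : ℝ) ^ k0 / p * ((p : ℝ) ^ k1 / 2 * (p : ℝ) ^ k1)) ≤
      (T.card : ℝ) := by
    rw [hT, Finset.card_sigma]
    push_cast
    have h1 : ∀ g ∈ hfinG.toFinset, (p : ℝ) ^ k0 / p * ((p : ℝ) ^ k1 / 2 * (p : ℝ) ^ k1) ≤
        ((((if w 0 = 0 then Finset.univ else Finset.univ.filter fun b => w 0 * ef 3 (m - 1) w b =
          -bval p m (fun i => g (Sum.inl i)) w) ×ˢ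
        ((if w 0 = 0 then Finset.univ else Finset.univ.filter fun b => w 0 * ef 3 m w b ≠
          -bval p (m + 1) (fun i => g (Sum.inr (Sum.inl i))) w) ×ˢ
            (Finset.univ : Finset (Mono 3 m → ZMod p)))) :
          Finset ((Mono 3 (m - 1) → ZMod p) × ((Mono 3 m → ZMod p) × (Mono 3 m → ZMod p)))).card :
            ℝ) := by
      intro g _
      rw [Finset.card_product, Finset.card_product]
      push_cast
      have e2 : (((Finset.univ : Finset (Mono 3 m → ZMod p)).card : ℕ) : ℝ) = (p : ℝ) ^ k1 := by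
        rw [Finset.card_univ, Fintype.card_fun, ZMod.card]
        push_cast
        rfl
      have e0' : (((Finset.univ : Finset (Mono 3 (m - 1) → ZMod p)).card : ℕ) : ℝ) =
          (p : ℝ) ^ k0 := by
        rw [Finset.card_univ, Fintype.card_fun, ZMod.card]
        push_cast
        rfl
      by_cases h0 : w 0 = 0
      · rw [if_pos h0, if_pos h0, e2, e0']
        have h3 : (p : ℝ) ^ k0 / p ≤ (p : ℝ) ^ k0 := div_le_self (by positivity) (by linarith)
        have h4 : (p : ℝ) ^ k1 / 2 ≤ (p : ℝ) ^ k1 := div_le_self (by positivity) (by norm_num)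
        gcongr
      · rw [if_neg h0, if_neg h0, e2]
        have e0 : (((Finset.univ.filter fun b => w 0 * ef 3 (m - 1) w b =
            -bval p m (fun i => g (Sum.inl i)) w).card : ℕ) : ℝ) = (p : ℝ) ^ k0 / p := by
          have h3 := card_fiber (w 0 • ef 3 (m - 1) w) (by
            obtain ⟨c, hc⟩ := ef_surj (m - 1) w h0
            exact ⟨c, mul_ne_zero h0 hc⟩) (-bval p m (fun i => g (Sum.inl i)) w)
          rw [Fintype.card_fun, ZMod.card] at h3
          push_cast at h3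
          exact h3
        have e1 : (p : ℝ) ^ k1 / 2 ≤ (((Finset.univ.filter fun b => w 0 * ef 3 m w b ≠
            -bval p (m + 1) (fun i => g (Sum.inr (Sum.inl i))) w).card : ℕ) : ℝ) := by
          have h3 := card_fiber_ne (w 0 • ef 3 m w) (by
            obtain ⟨c, hc⟩ := ef_surj m w h0
            exact ⟨c, mul_ne_zero h0 hc⟩) (-bval p (m + 1) (fun i => g (Sum.inr (Sum.inl i))) w)
          rw [Fintype.card_fun, ZMod.card] at h3
          push_cast at h3
          have h4 : (((Finset.univ.filter fun b => w 0 * ef 3 m w b ≠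
              -bval p (m + 1) (fun i => g (Sum.inr (Sum.inl i))) w).card : ℕ) : ℝ) =
              (p : ℝ) ^ k1 - (p : ℝ) ^ k1 / p := h3
          rw [h4]
          have h5 : (p : ℝ) ^ k1 / p ≤ (p : ℝ) ^ k1 / 2 :=
            div_le_div_of_nonneg_left (by positivity) (by norm_num) hp2
          linarith
        rw [e0]
        gcongr
    refine le_trans ?_ (Finset.card_nsmul_le_sum _ _ _ h1)
    rw [nsmul_eq_mul, Nat.card_coe_set_eq, Set.ncard_eq_toFinset_card _ hfinG]
  have h2 : T.card ≤ Nat.card (HH m G p w) := by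
    rw [Nat.card_coe_set_eq, ← Set.ncard_coe_finset]
    apply Set.ncard_le_ncard_of_injOn
      (fun q => Sum.elim q.1 (Sum.elim q.2.1 (Sum.elim q.2.2.1 q.2.2.2)))
    · rintro ⟨g, ⟨b0, ⟨b1, b2⟩⟩⟩ hq
      rw [Finset.mem_coe, hT, Finset.mem_sigma, Finset.mem_product, Finset.mem_product,
        Set.Finite.mem_toFinset] at hq
      obtain ⟨hg, h3, h4, -⟩ := hq
      refine ⟨hg, hp, ?_⟩
      by_cases h0 : w 0 = 0
      · exact Or.inl h0
      · rw [if_neg h0] at h3 h4
        exact Or.inr ⟨(Finset.mem_filter.1 h3).2, (Finset.mem_filter.1 h4).2⟩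
    · rintro ⟨g, ⟨b0, ⟨b1, b2⟩⟩⟩ _ ⟨g', ⟨b0', ⟨b1', b2'⟩⟩⟩ _ h
      have e1 : g = g' := funext fun i => congrFun h (Sum.inl i)
      have e2 : b0 = b0' := funext fun i => congrFun h (Sum.inr (Sum.inl i))
      have e3 : b1 = b1' := funext fun i => congrFun h (Sum.inr (Sum.inr (Sum.inl i)))
      have e4 : b2 = b2' := funext fun i => congrFun h (Sum.inr (Sum.inr (Sum.inr i)))
      subst e1 e2 e3 e4
      rfl
  have h3 : Fintype.card (Jx m) = Fintype.card (Ix m) + (k0 + (k1 + k1)) := by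
    simp only [Jx, Fintype.card_sum, hk0, hk1]
  have h2' : (T.card : ℝ) ≤ Nat.card (HH m G p w) := by exact_mod_cast h2
  rw [h3, le_div_iff₀ (by positivity)]
  rw [le_div_iff₀ (by positivity)] at hG
  refine le_trans ?_ (hcard.trans h2')
  refine le_trans (le_of_eq ?_) (mul_le_mul_of_nonneg_right hG (by positivity))
  rw [pow_add, pow_add, pow_add]
  ring

/-- The sum of the reciprocals of the primes with a suitable embedding diverges. -/
theorem emb_diverges (s : Finset ℂ) :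
    ¬ Summable (fun n : ℕ => ({p : ℕ | ∃ _ : Fact p.Prime,
      Emb (Subfield.closure (s : Set ℂ)) p}).indicator (fun n : ℕ => (1 : ℝ) / n) n) := by
  classical
  obtain ⟨K, i1, i2, S, h⟩ := exists_local s
  obtain ⟨c, hc, C, hC⟩ := recip_deg_one K (sum_ideals K)
  have h1 : ¬ Summable (fun n : ℕ => ({p : ℕ | DegOne K p}).indicator
      (fun n : ℕ => (1 : ℝ) / n) n) := by
    intro hsum
    set T := ∑' n : ℕ, ({p : ℕ | DegOne K p}).indicator (fun n : ℕ => (1 : ℝ) / n) n with hT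
    have h2 : ∀ x : ℕ, 2 ≤ x → c * Real.log (Real.log x) - C ≤ T := by
      intro x hx
      refine (hC x hx).trans ?_
      rw [Finset.sum_filter]
      refine le_trans (le_of_eq ?_) (hsum.sum_le_tsum (Finset.range (x + 1)) fun n _ => ?_)
      · apply Finset.sum_congr rfl
        intro n _
        by_cases hn : DegOne K n
        · rw [if_pos hn, Set.indicator_of_mem (show n ∈ {p : ℕ | DegOne K p} from hn)]
        · rw [if_neg hn, Set.indicator_of_notMem (show n ∉ {p : ℕ | DegOne K p} from hn)]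
      · apply Set.indicator_nonneg
        intro _ _
        positivity
    have h3 : Tendsto (fun x : ℕ => c * Real.log (Real.log x) - C) atTop atTop := by
      apply tendsto_atTop_add_const_right
      apply Tendsto.const_mul_atTop hc
      exact Real.tendsto_log_atTop.comp (Real.tendsto_log_atTop.comp tendsto_natCast_atTop_atTop)
    obtain ⟨x, hx1, hx2⟩ := ((h3.eventually_gt_atTop T).and (eventually_ge_atTop 2)).exists
    exact absurd (h2 x hx2) (not_le.2 hx1)
  refine TH888.B1.diverges_mono ?_ (TH888.B1.diverges_diff S.finite_toSet h1)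
  rintro p ⟨hp, hpS⟩
  have : Fact p.Prime := ⟨hp.1⟩
  exact ⟨this, h p hpS hp⟩

theorem reduction_exists (α : Fin (2 + 1) → ℂ) (hα : α ≠ 0) (p : ℕ) :
    ∃ w : Fin (2 + 1) → ZMod p, ∀ (_ : Fact p.Prime),
      Emb (Subfield.closure ((Finset.univ.image α : Finset ℂ) : Set ℂ)) p → w ≠ 0 ∧
      ∀ (d : ℕ) (F : Fin (2 + 1) → MvPolynomial (Fin (2 + 1)) ℤ), (∀ i, (F i).IsHomogeneous d) →
        (∃ M, ∀ n, M ≤ n → jd (ZMod p) F n w ≠ 0) → DMLAt F α := by
  by_cases h : ∃ _ : Fact p.Prime, Emb (Subfield.closure ((Finset.univ.image α : Finset ℂ) :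
      Set ℂ)) p
  · obtain ⟨hp, τ, hτ⟩ := h
    obtain ⟨w, hw, hw'⟩ := reduction_point α hα τ fun i => hτ _ (Subfield.subset_closure (by simp))
    exact ⟨w, fun _ _ => ⟨hw, fun d F hF hM => hw' d F hF hM⟩⟩
  · exact ⟨0, fun hp hE => absurd ⟨hp, hE⟩ h⟩

/-- **One complex point, almost all maps.** -/
theorem point_density (hm : 1 ≤ m) (α : Fin (2 + 1) → ℂ) (hα : α ≠ 0) :
    Tendsto (fun H : ℕ => (Nat.card {x : Jx m → ℤ // (∀ i, |x i| ≤ (H : ℤ)) ∧
      ¬ DMLAt (psys m x) α} : ℝ) / (2 * H + 1 : ℝ) ^ Fintype.card (Jx m)) atTop (𝓝 0) := by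
  classical
  obtain ⟨δ, M, P₀, G, hδ, hG1, hG2⟩ := exists_good m hm
  choose w hw using reduction_exists α hα
  apply density_zero (ι := Jx m) (fun x => DMLAt (psys m x) α)
    (fun p => {y | (∃ _ : Fact p.Prime,
      Emb (Subfield.closure ((Finset.univ.image α : Finset ℂ) : Set ℂ)) p) ∧ y ∈ HH m G p (w p)})
  · rintro p hp x ⟨⟨hpf, hE⟩, hx⟩
    obtain ⟨hw0, hw1⟩ := hw p hpf hE
    exact hw1 (m + 1) (psys m x) (psys_hom hm x) (HH_good hm hG2 hp (w p) hw0 x hx)
  · intro hsum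
    have h1 := TH888.B1.diverges_diff (Set.finite_Iio P₀) (emb_diverges (Finset.univ.image α))
    apply h1
    refine Summable.of_nonneg_of_le (fun n => Set.indicator_nonneg (fun _ _ => by positivity) n)
      (fun n => ?_) (hsum.mul_left (2 / δ))
    by_cases hn : n ∈ {p : ℕ | ∃ _ : Fact p.Prime,
      Emb (Subfield.closure ((Finset.univ.image α : Finset ℂ) : Set ℂ)) p} \ Set.Iio P₀
    · rw [Set.indicator_of_mem hn]
      obtain ⟨⟨hnf, hE⟩, hnP⟩ := hn
      rw [if_pos hnf.out]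
      have h2 : ({y | (∃ _ : Fact n.Prime,
          Emb (Subfield.closure ((Finset.univ.image α : Finset ℂ) : Set ℂ)) n) ∧
            y ∈ HH m G n (w n)} : Set (Jx m → ZMod n)) = HH m G n (w n) := by
        ext y
        exact ⟨fun h => h.2, fun h => ⟨⟨hnf, hE⟩, h⟩⟩
      rw [h2]
      have h3 := card_HH (m := m) G δ hδ.le (hG1 n hnf.out (not_lt.1 hnP)) (w n)
      have h4 := mul_le_mul_of_nonneg_left h3 (show 0 ≤ 2 / δ by positivity)
      refine le_trans (le_of_eq ?_) h4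
      field_simp
    · rw [Set.indicator_of_notMem hn]
      split_ifs <;> positivity

end Pool.Agent.T6.H91.HP
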