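import Mathlib

set_option autoImplicit false

/-! Counting the vectors over `F_p` on which `p + 1` pairwise independent linear functionals do not
vanish. -/

namespace Pool.Agent.T6.H91.HP

open Finset

section kernel

variable {p : ℕ} [hp : Fact p.Prime] {V : Type} [AddCommGroup V] [Module (ZMod p) V] [Fintype V]

omit [Fintype V] in
theorem card_of_surj {W : Type} [AddCommGroup W] [Module (ZMod p) W] (f : V →ₗ[ZMod p] W)
    (hf : Function.Surjective f) :
    Nat.card V = Nat.card {v : V // f v = 0} * Nat.card W := by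
  have h1 := AddSubgroup.card_eq_card_quotient_mul_card_addSubgroup
    (LinearMap.ker f).toAddSubgroup
  have h2 : Nat.card (V ⧸ (LinearMap.ker f).toAddSubgroup) = Nat.card W := by
    apply Nat.card_congr
    exact (f.quotKerEquivOfSurjective hf).toEquiv
  have h3 : Nat.card (LinearMap.ker f).toAddSubgroup = Nat.card {v : V // f v = 0} := by
    apply Nat.card_congr
    exact Equiv.subtypeEquivRight fun v => LinearMap.mem_ker
  rw [h1, h2, h3, mul_comm]

theorem card_ker_one [DecidableEq V] (f : V →ₗ[ZMod p] ZMod p) (h : ∃ v, f v ≠ 0) :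
    ((univ.filter fun v => f v = 0).card : ℝ) = Fintype.card V / p := by
  obtain ⟨v, hv⟩ := h
  have hs : Function.Surjective f := by
    intro y
    refine ⟨(y / f v) • v, ?_⟩
    rw [map_smul, smul_eq_mul, div_mul_cancel₀ _ hv]
  have h1 := card_of_surj f hs
  rw [Nat.card_eq_fintype_card, Nat.card_eq_fintype_card, Nat.card_zmod, Fintype.card_subtype] at h1
  have hp0 : (0 : ℝ) < p := by exact_mod_cast hp.out.pos
  rw [eq_div_iff hp0.ne', h1]
  push_cast
  rfl

theorem card_ker_two [DecidableEq V] (f g : V →ₗ[ZMod p] ZMod p) (h1 : ∃ v, f v ≠ 0 ∧ g v = 0)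
    (h2 : ∃ v, g v ≠ 0 ∧ f v = 0) :
    ((univ.filter fun v => f v = 0 ∧ g v = 0).card : ℝ) = Fintype.card V / p ^ 2 := by
  obtain ⟨v, hv, hv'⟩ := h1
  obtain ⟨w, hw, hw'⟩ := h2
  have hs : Function.Surjective (f.prod g) := by
    rintro ⟨a, b⟩
    refine ⟨(a / f v) • v + (b / g w) • w, ?_⟩
    change (f _, g _) = (a, b)
    rw [map_add, map_add, map_smul, map_smul, map_smul, map_smul,
      hv', hw', smul_zero, smul_zero, smul_eq_mul, smul_eq_mul, div_mul_cancel₀ _ hv,
      div_mul_cancel₀ _ hw, add_zero, zero_add]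
  have h1 := card_of_surj (f.prod g) hs
  rw [Nat.card_eq_fintype_card, Nat.card_eq_fintype_card, Nat.card_prod, Nat.card_zmod,
    Fintype.card_subtype] at h1
  have hp0 : (0 : ℝ) < (p : ℝ) ^ 2 := by
    have : (0 : ℝ) < p := by exact_mod_cast hp.out.pos
    positivity
  rw [eq_div_iff hp0.ne', h1]
  push_cast
  have h3 : (univ.filter fun v => (f.prod g) v = 0) = univ.filter fun v => f v = 0 ∧ g v = 0 := by
    ext v
    simp [LinearMap.prod_apply, Prod.ext_iff]
  rw [h3]
  ring

/-- **The second moment sieve.** -/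
theorem sieve [DecidableEq V] {Z : Type} [Fintype Z] [DecidableEq Z]
    (hZ : Fintype.card Z = p + 1) (f : Z → V →ₗ[ZMod p] ZMod p)
    (hf : ∀ z w, z ≠ w → ∃ v, f z v ≠ 0 ∧ f w v = 0) (D : ℕ) (hD : 1 ≤ D) (Ω : Finset V)
    (hΩ : ∀ v, v ∉ Ω → (univ.filter fun z => f z v = 0).card ≤ D) :
    (Fintype.card V : ℝ) * (1 - ((D : ℝ) - 1) / p) ≤
      D * ((univ.filter fun v => ∀ z, f z v ≠ 0).card : ℝ) + ((p : ℝ) + 1) ^ 2 * Ω.card := by
  classical
  have hp0 : (0 : ℝ) < p := by exact_mod_cast hp.out.pos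
  set n : ℝ := (Fintype.card V : ℝ) with hn
  set X : V → ℝ := fun v => ∑ z : Z, if f z v = 0 then (1 : ℝ) else 0 with hX
  have hXc : ∀ v, X v = ((univ.filter fun z => f z v = 0).card : ℝ) := by
    intro v
    simp only [hX]
    rw [Finset.sum_boole]
  have hone : ∀ z, ∃ v, f z v ≠ 0 := by
    intro z
    obtain ⟨w, hw⟩ : ∃ w, w ≠ z := by
      by_contra hcon
      push Not at hcon
      have : Fintype.card Z ≤ 1 := Fintype.card_le_one_iff.2 fun a b => by rw [hcon a, hcon b]
      have := hp.out.pos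
      omega
    obtain ⟨v, hv, -⟩ := hf z w hw.symm
    exact ⟨v, hv⟩
  -- first moment
  have hS1 : ∑ v, X v = (p + 1) * (n / p) := by
    simp only [hX]
    rw [sum_comm]
    have h1 : ∀ z : Z, ∑ v : V, (if f z v = 0 then (1 : ℝ) else 0) = n / p := by
      intro z
      rw [Finset.sum_boole]
      exact card_ker_one (f z) (hone z)
    rw [sum_congr rfl fun z _ => h1 z, sum_const, card_univ, hZ, nsmul_eq_mul]
    push_cast
    ring
  -- second moment
  have hS2 : ∑ v, X v ^ 2 = 2 * (p + 1) * (n / p) := by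
    have h1 : ∀ v, X v ^ 2 = ∑ z : Z, ∑ w : Z, if f z v = 0 ∧ f w v = 0 then (1 : ℝ) else 0 := by
      intro v
      simp only [hX]
      rw [sq, Finset.sum_mul_sum]
      apply sum_congr rfl
      intro z _
      apply sum_congr rfl
      intro w _
      by_cases h1 : f z v = 0 <;> by_cases h2 : f w v = 0 <;> simp [h1, h2]
    rw [sum_congr rfl fun v _ => h1 v, sum_comm]
    have h2 : ∀ z : Z, ∑ v : V, ∑ w : Z, (if f z v = 0 ∧ f w v = 0 then (1 : ℝ) else 0) =
        2 * (n / p) := by
      intro z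
      rw [sum_comm, ← Finset.add_sum_erase _ _ (mem_univ z)]
      have h3 : ∑ v : V, (if f z v = 0 ∧ f z v = 0 then (1 : ℝ) else 0) = n / p := by
        rw [Finset.sum_boole]
        simp only [and_self]
        exact card_ker_one (f z) (hone z)
      have h4 : ∀ w ∈ (univ : Finset Z).erase z,
          ∑ v : V, (if f z v = 0 ∧ f w v = 0 then (1 : ℝ) else 0) = n / p ^ 2 := by
        intro w hw
        rw [Finset.sum_boole]
        exact card_ker_two (f z) (f w) (hf z w (ne_of_mem_erase hw).symm)
          (hf w z (ne_of_mem_erase hw))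
      rw [h3, sum_congr rfl h4, sum_const, card_erase_of_mem (mem_univ z), card_univ, hZ,
        nsmul_eq_mul]
      have h5 : ((p + 1 - 1 : ℕ) : ℝ) = p := by simp
      rw [h5]
      field_simp
      ring
    rw [sum_congr rfl fun z _ => h2 z, sum_const, card_univ, hZ, nsmul_eq_mul]
    push_cast
    ring
  have hsum : ∑ v, (1 - X v) * (D - X v) = n * (1 - ((D : ℝ) - 1) / p) := by
    have h1 : ∀ v, (1 - X v) * (D - X v) = D - (D + 1) * X v + X v ^ 2 := fun v => by ring
    rw [sum_congr rfl fun v _ => h1 v, sum_add_distrib, sum_sub_distrib, ← mul_sum, hS1, hS2,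
      sum_const, card_univ, nsmul_eq_mul, ← hn]
    field_simp
    ring
  rw [← hsum]
  have hpt : ∀ v ∈ (univ : Finset V), (1 - X v) * (D - X v) ≤
      D * (if ∀ z, f z v ≠ 0 then (1 : ℝ) else 0) +
        ((p : ℝ) + 1) ^ 2 * (if v ∈ Ω then (1 : ℝ) else 0) := by
    intro v _
    have hD' : (1 : ℝ) ≤ D := by exact_mod_cast hD
    by_cases h0 : ∀ z, f z v ≠ 0
    · have h1 : X v = 0 := by
        simp only [hX]
        exact sum_eq_zero fun z _ => if_neg (h0 z)
      rw [h1, if_pos h0]
      have : (0 : ℝ) ≤ ((p : ℝ) + 1) ^ 2 * (if v ∈ Ω then (1 : ℝ) else 0) := by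
        split_ifs <;> positivity
      linarith
    · rw [if_neg h0, mul_zero, zero_add]
      have h1 : 1 ≤ X v := by
        rw [hXc]
        push Not at h0
        obtain ⟨z, hz⟩ := h0
        have : 0 < (univ.filter fun z => f z v = 0).card :=
          card_pos.2 ⟨z, mem_filter.2 ⟨mem_univ _, hz⟩⟩
        exact_mod_cast this
      have h2 : X v ≤ p + 1 := by
        rw [hXc]
        have : (univ.filter fun z => f z v = 0).card ≤ p + 1 := by
          rw [← hZ]
          exact card_le_univ _
        exact_mod_cast this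
      by_cases hv : v ∈ Ω
      · rw [if_pos hv, mul_one]
        rcases le_total (X v) D with h3 | h3
        · nlinarith
        · nlinarith
      · rw [if_neg hv, mul_zero]
        have h3 : X v ≤ D := by
          rw [hXc]
          exact_mod_cast hΩ v hv
        nlinarith
  refine (sum_le_sum hpt).trans (le_of_eq ?_)
  rw [sum_add_distrib, ← mul_sum, ← mul_sum, Finset.sum_boole, Finset.sum_boole]
  congr 3
  rw [filter_mem_eq_inter, univ_inter]

end kernel

end Pool.Agent.T6.H91.HP
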