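import Pool.Agent.T6.H91.HP.Cons

set_option autoImplicit false

/-! Degree two. -/

namespace Pool.Agent.T6.H91.HP

open Pool.Agent.H936R2 Pool.Agent.H927R2.RD Filter Topology

section count

open Finset Polynomial

variable {p : ℕ} [hp : Fact p.Prime]

theorem fv_two (u : Fin (2 + 1) → ZMod p) (t : ZMod p) :
    fv 2 (some t) u = u 0 + u 1 * t + u 2 * t ^ 2 := by
  rw [fv_some, ofFn_eval, Fin.sum_univ_three]
  simp

theorem fv_two' (u : Fin (2 + 1) → ZMod p) : fv 2 none u = u 2 := by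
  rw [fv_none, ofFn_coeff_eq_val_of_lt _ (by omega)]
  rfl

theorem fw_two (u v : Fin (2 + 1) → ZMod p) (t : ZMod p) :
    fw (ofFn (2 + 1) u) 2 (some t) v =
      (u 0 * v 1 - u 1 * v 0) + 2 * (u 0 * v 2 - u 2 * v 0) * t +
        (u 1 * v 2 - u 2 * v 1) * t ^ 2 := by
  rw [fw_some, eval_sub, eval_mul, eval_mul, ofFn_eval, ofFn_eval, ofFn_eval', ofFn_eval',
    Fin.sum_univ_three, Fin.sum_univ_three, Fin.sum_univ_three, Fin.sum_univ_three]
  simp only [Fin.val_zero, Fin.val_one, Fin.val_two, pow_zero, pow_one, mul_one, Nat.cast_zero,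
    zero_mul, mul_zero, Nat.cast_one, one_mul, Nat.sub_self, zero_add, Nat.cast_ofNat]
  have h1 : (2 - 1 : ℕ) = 1 := rfl
  rw [h1, pow_one]
  ring

theorem fw_two' (u v : Fin (2 + 1) → ZMod p) :
    fw (ofFn (2 + 1) u) 2 none v = u 1 * v 2 - u 2 * v 1 := by
  have h1 : (2 - 1 : ℕ) = 1 := rfl
  rw [fw_none, h1, ofFn_coeff_eq_val_of_lt _ (by omega), ofFn_coeff_eq_val_of_lt _ (by omega),
    ofFn_coeff_eq_val_of_lt _ (by omega), ofFn_coeff_eq_val_of_lt _ (by omega)]
  rfl

theorem second_zero (hp2 : (2 : ZMod p) ≠ 0) (u v : Fin (2 + 1) → ZMod p) (hu : u ∈ zf p 2)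
    (z : Option (ZMod p)) (hz : fw (ofFn (2 + 1) u) 2 z v = 0) :
    ∃ w, w ≠ z ∧ fw (ofFn (2 + 1) u) 2 w v = 0 := by
  have hu' : ∀ z, fv 2 z u ≠ 0 := (mem_filter.1 hu).2
  have hun := hu' none
  rw [fv_two'] at hun
  have hus : ∀ t, u 0 + u 1 * t + u 2 * t ^ 2 ≠ 0 := fun t => by
    rw [← fv_two]
    exact hu' (some t)
  set W0 := u 0 * v 1 - u 1 * v 0 with hW0
  set W1 := 2 * (u 0 * v 2 - u 2 * v 0) with hW1
  set W2 := u 1 * v 2 - u 2 * v 1 with hW2
  have hap : 2 * (W0 * u 2 + W2 * u 0) - W1 * u 1 = 0 := by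
    rw [hW0, hW1, hW2]
    ring
  rcases z with _ | s
  · rw [fw_two', ← hW2] at hz
    by_cases h1 : W1 = 0
    · have h0 : W0 = 0 := by
        rw [h1, hz] at hap
        have h2 : 2 * u 2 * W0 = 0 := by linear_combination hap
        exact (mul_eq_zero.1 h2).resolve_left (mul_ne_zero hp2 hun)
      refine ⟨some 0, by simp, ?_⟩
      rw [fw_two, ← hW0, ← hW1, ← hW2, h0, h1]
      ring
    · refine ⟨some (-W0 / W1), by simp, ?_⟩
      rw [fw_two, ← hW0, ← hW1, ← hW2, hz]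
      field_simp
      ring
  · rw [fw_two, ← hW0, ← hW1, ← hW2] at hz
    by_cases h2 : W2 = 0
    · refine ⟨none, by simp, ?_⟩
      rw [fw_two']
      exact h2
    · refine ⟨some (-W1 / W2 - s), ?_, ?_⟩
      · intro h3
        have h4 : -W1 / W2 - s = s := Option.some_injective _ h3
        have h5 : W1 = -2 * W2 * s := by
          field_simp at h4
          linear_combination -h4
        have h6 : W0 = W2 * s ^ 2 := by
          rw [h5] at hz
          linear_combination hz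
        apply hus s
        rw [h5, h6] at hap
        have h7 : 2 * W2 * (u 0 + u 1 * s + u 2 * s ^ 2) = 0 := by linear_combination hap
        exact (mul_eq_zero.1 h7).resolve_left (mul_ne_zero hp2 h2)
      · rw [fw_two, ← hW0, ← hW1, ← hW2]
        field_simp
        linear_combination W2 * hz

theorem card_zw_two (hp2 : (2 : ZMod p) ≠ 0) (u : Fin (2 + 1) → ZMod p) (hu : u ∈ zf p 2) :
    (p : ℝ) ^ 3 / 4 ≤ ((zw p 2 u).card : ℝ) := by
  classical
  have hu' : ∀ z, fv 2 z u ≠ 0 := (mem_filter.1 hu).2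
  have hun := hu' none
  rw [fv_two'] at hun
  have hp0 : (0 : ℝ) < p := by exact_mod_cast hp.out.pos
  have hp1 : (2 : ℝ) ≤ p := by exact_mod_cast hp.out.two_le
  have hone : ∀ z, ∃ v, fw (ofFn (2 + 1) u) 2 z v ≠ 0 := by
    intro z
    rcases z with _ | t
    · refine ⟨![0, 1, 0], ?_⟩
      rw [fw_two']
      simpa using hun
    · refine ⟨![-t, 1, 0], ?_⟩
      rw [fw_two]
      have h1 := hu' (some t)
      rw [fv_two] at h1
      intro h2
      apply h1
      rw [← h2]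
      simp
      ring
  -- first moment
  have hS1 : ∑ v : Fin (2 + 1) → ZMod p,
      ((univ.filter fun z => fw (ofFn (2 + 1) u) 2 z v = 0).card : ℝ) = (p + 1) * (p : ℝ) ^ 2 := by
    have h1 : ∀ v : Fin (2 + 1) → ZMod p,
        ((univ.filter fun z => fw (ofFn (2 + 1) u) 2 z v = 0).card : ℝ) =
          ∑ z, if fw (ofFn (2 + 1) u) 2 z v = 0 then (1 : ℝ) else 0 := by
      intro v
      rw [Finset.sum_boole]
    rw [sum_congr rfl fun v _ => h1 v, sum_comm]
    have h2 : ∀ z : Option (ZMod p), ∑ v : Fin (2 + 1) → ZMod p,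
        (if fw (ofFn (2 + 1) u) 2 z v = 0 then (1 : ℝ) else 0) = (p : ℝ) ^ 2 := by
      intro z
      rw [Finset.sum_boole, card_ker_one _ (hone z), Fintype.card_fun, ZMod.card,
        Fintype.card_fin]
      push_cast
      field_simp
    rw [sum_congr rfl fun z _ => h2 z, sum_const, card_univ, card_optZ, nsmul_eq_mul]
    push_cast
    ring
  have hpt : ∀ v ∈ (univ : Finset (Fin (2 + 1) → ZMod p)),
      (if v ∈ zw p 2 u then (0 : ℝ) else 2) ≤
        ((univ.filter fun z => fw (ofFn (2 + 1) u) 2 z v = 0).card : ℝ) := by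
    intro v _
    split_ifs with hv
    · positivity
    · have h1 : ∃ z, fw (ofFn (2 + 1) u) 2 z v = 0 := by
        by_contra hcon
        push Not at hcon
        exact hv (mem_filter.2 ⟨mem_univ _, hcon⟩)
      obtain ⟨z, hz⟩ := h1
      obtain ⟨w, hwz, hw⟩ := second_zero hp2 u v hu z hz
      have h2 : ({z, w} : Finset (Option (ZMod p))) ⊆
          univ.filter fun z => fw (ofFn (2 + 1) u) 2 z v = 0 := by
        intro y hy
        rw [mem_insert, mem_singleton] at hy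
        rw [mem_filter]
        rcases hy with rfl | rfl
        · exact ⟨mem_univ _, hz⟩
        · exact ⟨mem_univ _, hw⟩
      have h3 := card_le_card h2
      rw [card_pair (Ne.symm hwz)] at h3
      exact_mod_cast h3
  have hsum := sum_le_sum hpt
  rw [hS1] at hsum
  have h4 : ∑ v : Fin (2 + 1) → ZMod p, (if v ∈ zw p 2 u then (0 : ℝ) else 2) =
      2 * ((p : ℝ) ^ 3 - (zw p 2 u).card) := by
    have h5 : ∀ v : Fin (2 + 1) → ZMod p, (if v ∈ zw p 2 u then (0 : ℝ) else 2) =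
        2 - 2 * (if v ∈ zw p 2 u then (1 : ℝ) else 0) := by
      intro v
      split_ifs <;> norm_num
    rw [sum_congr rfl fun v _ => h5 v, sum_sub_distrib, ← mul_sum, Finset.sum_boole, sum_const,
      card_univ, Fintype.card_fun, ZMod.card, Fintype.card_fin, filter_mem_eq_inter, univ_inter,
      nsmul_eq_mul]
    push_cast
    ring
  rw [h4] at hsum
  nlinarith [pow_pos hp0 2]

end count

section maps

open MvPolynomial

theorem eval_smul {R : Type} [CommRing R] {P : MvPolynomial (Fin (2 + 1)) ℤ} {k : ℕ}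
    (hP : P.IsHomogeneous k) (t : R) (z : Fin (2 + 1) → R) :
    eval₂ (Int.castRingHom R) (t • z) P = t ^ k * eval₂ (Int.castRingHom R) z P := by
  rw [← eval_map, ← eval_map]
  exact T3b_eval_smul (hP.map _) t z

variable {m : ℕ} {p : ℕ} [hp : Fact p.Prime]

theorem lpt_cases (k : ℕ) {g : ZMod p → ZMod p → ZMod p}
    (hg : ∀ t x y, g (t * x) (t * y) = t ^ k * g x y) (h0 : g 0 1 ≠ 0) (h1 : ∀ t, g 1 t ≠ 0)
    (x y : ZMod p) (hxy : x ≠ 0 ∨ y ≠ 0) : g x y ≠ 0 := by
  by_cases hx : x = 0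
  · have hy : y ≠ 0 := hxy.resolve_left (not_not.2 hx)
    have h2 := hg y 0 1
    rw [mul_zero, mul_one] at h2
    rw [hx, h2]
    exact mul_ne_zero (pow_ne_zero _ hy) h0
  · have h2 := hg x 1 (y / x)
    rw [mul_one, mul_div_cancel₀ _ hx] at h2
    rw [h2]
    exact mul_ne_zero (pow_ne_zero _ hx) (h1 _)

/-- The value of a binary form. -/
noncomputable def bv (p m : ℕ) (c : Fin (m + 1) → ℤ) (x y : ZMod p) : ZMod p :=
  eval₂ (Int.castRingHom (ZMod p)) (lpt x y) (bform m c)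

/-- The value of the Jacobian of two binary forms. -/
noncomputable def bw (p m : ℕ) (u v : Fin (m + 1) → ℤ) (x y : ZMod p) : ZMod p :=
  eval₂ (Int.castRingHom (ZMod p)) (lpt x y) (pderiv 1 (bform m u)) *
      eval₂ (Int.castRingHom (ZMod p)) (lpt x y) (pderiv 2 (bform m v)) -
    eval₂ (Int.castRingHom (ZMod p)) (lpt x y) (pderiv 2 (bform m u)) *
      eval₂ (Int.castRingHom (ZMod p)) (lpt x y) (pderiv 1 (bform m v))

theorem bv_ne (c : Fin (m + 1) → ℤ) (h : red p c ∈ zf p m) (x y : ZMod p)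
    (hxy : x ≠ 0 ∨ y ≠ 0) : bv p m c x y ≠ 0 := by
  have h' : ∀ z, fv m z (red p c) ≠ 0 := (Finset.mem_filter.1 h).2
  refine lpt_cases m (g := bv p m c) (fun t x y => ?_) ?_ (fun t => ?_) x y
    hxy
  · unfold bv
    rw [← lpt_smul, eval_smul (bform_hom m c)]
  · unfold bv
    rw [val_none, ← fv_none]
    exact h' none
  · unfold bv
    rw [val_some, ← fv_some]
    exact h' (some t)

theorem bw_ne (hm : 1 ≤ m) (hmp : ((m : ℕ) : ZMod p) ≠ 0) (u v : Fin (m + 1) → ℤ)
    (h : red p v ∈ zw p m (red p u)) (x y : ZMod p) (hxy : x ≠ 0 ∨ y ≠ 0) :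
    bw p m u v x y ≠ 0 := by
  have h' : ∀ z, fw (Polynomial.ofFn (m + 1) (red p u)) m z (red p v) ≠ 0 :=
    (Finset.mem_filter.1 h).2
  refine lpt_cases ((m - 1) + (m - 1)) (g := bw p m u v)
    (fun t x y => ?_) ?_ (fun t => ?_) x y hxy
  · unfold bw
    rw [← lpt_smul, eval_smul (bform_hom m u).pderiv, eval_smul (bform_hom m v).pderiv,
      eval_smul (bform_hom m u).pderiv, eval_smul (bform_hom m v).pderiv, pow_add]
    ring
  · have h2 := h' none
    rw [fw_none] at h2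
    unfold bw
    rw [d1_none _ _ hm, d1_none _ _ hm, d2_none, d2_none]
    intro h3
    apply mul_ne_zero hmp h2
    rw [← h3]
    ring
  · have h2 := h' (some t)
    rw [fw_some, Polynomial.eval_sub, Polynomial.eval_mul, Polynomial.eval_mul] at h2
    unfold bw
    rw [d1_some, d1_some, d2_some, d2_some]
    intro h3
    apply mul_ne_zero hmp h2
    rw [← h3]
    ring

theorem bform_lin (a b : ℤ) (u v : Fin (m + 1) → ℤ) :
    bform m (fun i => a * u i + b * v i) = C a * bform m u + C b * bform m v := by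
  unfold bform
  rw [Finset.mul_sum, Finset.mul_sum, ← Finset.sum_add_distrib]
  apply Finset.sum_congr rfl
  intro i _
  rw [map_add, map_mul, map_mul]
  ring

theorem lsys_pt {R : Type} [CommRing R] {a : Fin (m + 1) → ℤ} {u v : Fin (m + 1 + 1) → ℤ}
    {B : Fin (2 + 1) → MvPolynomial (Fin (2 + 1)) ℤ} (x y : R) :
    pt (overR R (lsys m a u v B)) (lpt x y) =
      lpt (eval₂ (Int.castRingHom R) (lpt x y) (bform (m + 1) u))
        (eval₂ (Int.castRingHom R) (lpt x y) (bform (m + 1) v)) := by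
  have hx0 : lpt x y 0 = 0 := rfl
  funext i
  simp only [pt, overR, eval_map]
  fin_cases i
  · change eval₂ (Int.castRingHom R) (lpt x y) (X 0 * (bform m a + X 0 * B 0)) = 0
    rw [eval₂_mul, eval₂_X, hx0, zero_mul]
  · change eval₂ (Int.castRingHom R) (lpt x y) (bform (m + 1) u + X 0 * B 1) = _
    rw [eval₂_add, eval₂_mul, eval₂_X, hx0, zero_mul, add_zero]
    rfl
  · change eval₂ (Int.castRingHom R) (lpt x y) (bform (m + 1) v + X 0 * B 2) = _
    rw [eval₂_add, eval₂_mul, eval₂_X, hx0, zero_mul, add_zero]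
    rfl

/-- Degree two: the condition at time one. -/
theorem lsys_good_two (hp2 : (2 : ZMod p) ≠ 0) {a : Fin (1 + 1) → ℤ} {u v : Fin (1 + 1 + 1) → ℤ}
    {B : Fin (2 + 1) → MvPolynomial (Fin (2 + 1)) ℤ}
    (hc : red p (fun i => a 0 * u i + a 1 * v i) ∈ zf p 2)
    (hv : red p v ∈ zw p 2 (red p (fun i => a 0 * u i + a 1 * v i))) :
    p ∈ LP (lsys 1 a u v B) 1 1 := by
  refine ⟨hp.out, fun z hz hz0 n hn1 hn2 => ?_⟩
  have hn : n = 0 + 1 := by omega
  subst hn
  rw [jd_add, Function.iterate_one, eq_lpt z hz0, lsys_pt, lsys_jd]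
  have hxy : z 1 ≠ 0 ∨ z 2 ≠ 0 := by
    by_contra hcon
    push Not at hcon
    apply hz
    rw [eq_lpt z hz0, hcon.1, hcon.2]
    funext i
    fin_cases i <;> rfl
  set x := z 1
  set y := z 2
  have h1 : bv p 2 (fun i => a 0 * u i + a 1 * v i) x y ≠ 0 := bv_ne _ hc x y hxy
  have h2 : bv p 2 (fun i => a 0 * u i + a 1 * v i) x y = a 0 * bv p 2 u x y + a 1 * bv p 2 v x y := by
    unfold bv
    rw [bform_lin, eval₂_add, eval₂_mul, eval₂_mul, eval₂_C, eval₂_C]
    rfl
  rw [h2] at h1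
  change eval₂ (Int.castRingHom (ZMod p)) (lpt (bv p 2 u x y) (bv p 2 v x y)) (bform 1 a) *
    bw p 2 u v (bv p 2 u x y) (bv p 2 v x y) ≠ 0
  have h3 : bv p 2 u x y ≠ 0 ∨ bv p 2 v x y ≠ 0 := by
    by_contra hcon
    push Not at hcon
    apply h1
    rw [hcon.1, hcon.2]
    ring
  apply mul_ne_zero
  · rw [bform_eval, Fin.sum_univ_two]
    simp only [Fin.val_zero, Fin.val_one, Nat.sub_zero, pow_one, pow_zero, mul_one, Nat.sub_self,
      one_mul]
    exact h1
  · have h4 := bw_ne (by omega) (by exact_mod_cast hp2) (fun i => a 0 * u i + a 1 * v i) v hv _ _ h3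
    intro h5
    apply h4
    have h6 : ∀ x y, bw p 2 (fun i => a 0 * u i + a 1 * v i) v x y = a 0 * bw p 2 u v x y := by
      intro x y
      unfold bw
      rw [bform_lin, map_add, map_add, pderiv_C_mul, pderiv_C_mul, pderiv_C_mul, pderiv_C_mul]
      simp only [eval₂_add, eval₂_mul, eval₂_C]
      change (((a 0 : ℤ) : ZMod p) * _ + ((a 1 : ℤ) : ZMod p) * _) * _ -
        (((a 0 : ℤ) : ZMod p) * _ + ((a 1 : ℤ) : ZMod p) * _) * _ = _
      ring
    rw [h6, h5, mul_zero]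

/-- The good coefficient vectors modulo `p`. -/
def GG2 (p : ℕ) : Set (Ix 1 → ZMod p) :=
  {w | ∃ _ : Fact p.Prime, (2 : ZMod p) ≠ 0 ∧ w (Sum.inl 0) ≠ 0 ∧
    (fun i => w (Sum.inl 0) * w (Sum.inr (Sum.inl i)) +
      w (Sum.inl 1) * w (Sum.inr (Sum.inr i))) ∈ zf p 2 ∧
    (fun i => w (Sum.inr (Sum.inr i))) ∈ zw p 2 (fun i => w (Sum.inl 0) * w (Sum.inr (Sum.inl i)) +
      w (Sum.inl 1) * w (Sum.inr (Sum.inr i)))}

theorem card_GG2 (hpm : 12 ≤ p) :
    (1 : ℝ) / 48 ≤ (Nat.card (GG2 p) : ℝ) / (p : ℝ) ^ Fintype.card (Ix 1) := by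
  classical
  have hp0 : (0 : ℝ) < p := by exact_mod_cast hp.out.pos
  have hp12 : (12 : ℝ) ≤ p := by exact_mod_cast hpm
  have hp2 : (2 : ZMod p) ≠ 0 := by
    intro h
    have h1 : ((2 : ℕ) : ZMod p) = 0 := by exact_mod_cast h
    rw [ZMod.natCast_eq_zero_iff] at h1
    have := Nat.le_of_dvd (by omega) h1
    omega
  set S : Finset ((ZMod p × ZMod p) × ((_ : Fin (2 + 1) → ZMod p) ×
      (Fin (2 + 1) → ZMod p))) :=
    ((Finset.univ.filter fun x : ZMod p => x ≠ 0) ×ˢ Finset.univ) ×ˢ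
      (zf p 2).sigma (fun u => zw p 2 u) with hS
  have h1 : ((p : ℝ) - 1) * p * ((p : ℝ) ^ 3 / 6 * ((p : ℝ) ^ 3 / 4)) ≤ (S.card : ℝ) := by
    rw [hS, Finset.card_product, Finset.card_product, Finset.card_sigma]
    push_cast
    have e0 : (((Finset.univ.filter fun x : ZMod p => x ≠ 0).card : ℕ) : ℝ) = (p : ℝ) - 1 := by
      rw [Finset.filter_ne', Finset.card_erase_of_mem (Finset.mem_univ _), Finset.card_univ,
        ZMod.card, Nat.cast_sub hp.out.one_lt.le, Nat.cast_one]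
    have e1 := card_zf (p := p) (m := 2) le_rfl (by omega)
    have e3 : ∀ u ∈ zf p 2, (p : ℝ) ^ 3 / 4 ≤ ((zw p 2 u).card : ℝ) :=
      fun u hu => card_zw_two hp2 u hu
    have e4 : ((zf p 2).card : ℝ) * ((p : ℝ) ^ 3 / 4) ≤
        ∑ u ∈ zf p 2, ((zw p 2 u).card : ℝ) := by
      rw [← nsmul_eq_mul]
      exact Finset.card_nsmul_le_sum _ _ _ e3
    rw [e0, Finset.card_univ, ZMod.card]
    have hp1 : (0 : ℝ) ≤ (p : ℝ) - 1 := by linarith
    refine mul_le_mul_of_nonneg_left (le_trans ?_ e4) (by positivity)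
    refine mul_le_mul_of_nonneg_right (le_trans (le_of_eq ?_) e1) (by positivity)
    norm_num
  have h2 : S.card ≤ Nat.card (GG2 p) := by
    rw [Nat.card_coe_set_eq, ← Set.ncard_coe_finset]
    apply Set.ncard_le_ncard_of_injOn (fun q => Sum.elim ![q.1.1, q.1.2]
      (Sum.elim (fun i => (q.2.1 i - q.1.2 * q.2.2 i) / q.1.1) q.2.2))
    · rintro ⟨⟨a, b⟩, ⟨u, v⟩⟩ hq
      rw [Finset.mem_coe, hS, Finset.mem_product, Finset.mem_product, Finset.mem_sigma] at hq
      have ha : a ≠ 0 := (Finset.mem_filter.1 hq.1.1).2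
      have h3 : (fun i : Fin (2 + 1) => a * ((u i - b * v i) / a) + b * v i) = u := by
        funext i
        field_simp
        ring
      refine ⟨hp, hp2, ha, ?_, ?_⟩
      · change (fun i : Fin (2 + 1) => a * ((u i - b * v i) / a) + b * v i) ∈ zf p 2
        rw [h3]
        exact hq.2.1
      · change v ∈ zw p 2 (fun i : Fin (2 + 1) => a * ((u i - b * v i) / a) + b * v i)
        rw [h3]
        exact hq.2.2
    · rintro ⟨⟨a, b⟩, ⟨u, v⟩⟩ hq ⟨⟨a', b'⟩, ⟨u', v'⟩⟩ _ h
      rw [Finset.mem_coe, hS, Finset.mem_product, Finset.mem_product, Finset.mem_sigma] at hq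
      have ha : a ≠ 0 := (Finset.mem_filter.1 hq.1.1).2
      have e1 : a = a' := congrFun h (Sum.inl 0)
      have e2 : b = b' := congrFun h (Sum.inl 1)
      have e3 : v = v' := funext fun i => congrFun h (Sum.inr (Sum.inr i))
      subst e1 e2 e3
      have e4 : u = u' := by
        funext i
        have h4 : (u i - b * v i) / a = (u' i - b * v i) / a :=
          congrFun h (Sum.inr (Sum.inl i))
        rw [div_left_inj' ha] at h4
        linear_combination h4
      subst e4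
      rfl
  have h3 : Fintype.card (Ix 1) = 8 := by
    simp [Ix]
  rw [h3, le_div_iff₀ (by positivity)]
  have h2' : (S.card : ℝ) ≤ Nat.card (GG2 p) := by exact_mod_cast h2
  refine le_trans ?_ (h1.trans h2')
  have h4 : (p : ℝ) / 2 ≤ p - 1 := by linarith
  have h5 : 1 / 48 * (p : ℝ) ^ 8 = (p / 2) * p * ((p : ℝ) ^ 3 / 6 * ((p : ℝ) ^ 3 / 4)) := by ring
  rw [h5]
  refine mul_le_mul_of_nonneg_right ?_ (by positivity)
  exact mul_le_mul_of_nonneg_right h4 hp0.le

omit hp in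
theorem maps_density_two :
    Tendsto (fun H : ℕ => (Nat.card {w : Ix 1 → ℤ // (∀ i, |w i| ≤ (H : ℤ)) ∧
      ¬ ∀ B : Fin (2 + 1) → MvPolynomial (Fin (2 + 1)) ℤ,
        ∃ p, p ∈ LP (lsys 1 (fun i => w (Sum.inl i)) (fun i => w (Sum.inr (Sum.inl i)))
          (fun i => w (Sum.inr (Sum.inr i))) B) 1 1} : ℝ) /
        (2 * H + 1 : ℝ) ^ Fintype.card (Ix 1)) atTop (𝓝 0) := by
  apply density_zero (ι := Ix 1) _ (fun p => GG2 p)
  · rintro p hp w ⟨_, hp2, -, hc, hv⟩ B
    refine ⟨p, lsys_good_two hp2 ?_ ?_⟩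
    · have h1 : red p (fun i => w (Sum.inl 0) * w (Sum.inr (Sum.inl i)) +
          w (Sum.inl 1) * w (Sum.inr (Sum.inr i))) =
          fun i => ((w (Sum.inl 0) : ℤ) : ZMod p) * ((w (Sum.inr (Sum.inl i)) : ℤ) : ZMod p) +
            ((w (Sum.inl 1) : ℤ) : ZMod p) * ((w (Sum.inr (Sum.inr i)) : ℤ) : ZMod p) := by
        funext i
        simp only [red]
        push_cast
        rfl
      rw [h1]
      exact hc
    · have h1 : red p (fun i => w (Sum.inl 0) * w (Sum.inr (Sum.inl i)) +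
          w (Sum.inl 1) * w (Sum.inr (Sum.inr i))) =
          fun i => ((w (Sum.inl 0) : ℤ) : ZMod p) * ((w (Sum.inr (Sum.inl i)) : ℤ) : ZMod p) +
            ((w (Sum.inl 1) : ℤ) : ZMod p) * ((w (Sum.inr (Sum.inr i)) : ℤ) : ZMod p) := by
        funext i
        simp only [red]
        push_cast
        rfl
      rw [h1]
      exact hv
  · intro hsum
    have h1 := hsum.tendsto_atTop_zero
    have h2 := h1.eventually (gt_mem_nhds (show (0 : ℝ) < 1 / 48 by norm_num))
    obtain ⟨n, hn⟩ := eventually_atTop.1 h2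
    obtain ⟨p, hpn, hp⟩ := Nat.exists_infinite_primes (max n 12)
    have : Fact p.Prime := ⟨hp⟩
    have h3 := hn p ((le_max_left _ _).trans hpn)
    rw [if_pos hp] at h3
    have h4 := card_GG2 (p := p) ((le_max_right _ _).trans hpn)
    linarith

end maps

end Pool.Agent.T6.H91.HP
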